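import Mathlib

/-!
A reflexive real Banach space no equivalent norm of which has normal structure.

`Γ = W → W × ℕ` with `W` the well order of type omega one.  A finite set `F ⊆ Γ` is good if it
branches at most binarily and the labels at its branching places strictly decrease along every
branch.  Every infinite subset of `Γ` has an infinite subset meeting each good set in at most two
points (`good_star`).  The space `X` consists of the functions `x` on `Γ` with
`∑ ‖x‖ₙ ^ 2 < ∞`, `‖x‖ₙ` being dual to `Rₙ (y) = 2 ^ n ρ (y) + 2 ^ (-n) ‖y‖₁` on finitely supported `y`,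
`ρ (y) = sup_F ∑_F |y|`.  It is reflexive (`reflexive`) and signed indicators of good sets are
bounded.  For an equivalent norm the suprema over good sets with small labels stabilise along the
countably closed tree of nodes (`stable`), and at a stable node one reads off a diametral
sequence (`main`, `not_normal`).
-/

set_option autoImplicit false

noncomputable section

namespace Pool.Agent.Results.MP_44bc16_an.NoNormalStructure

open scoped ENNReal BigOperators
open Filter Topology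

section Space

variable {Γ : Type} (Fam : Set (Finset Γ))

/-- the `ℓ₁` norm of a finitely supported function -/
def mass (y : Γ →₀ ℝ) : ℝ := ∑ γ ∈ y.support, |y γ|

/-- supremum of `∑_F |y|` over the members `F` of the family -/
def rho (y : Γ →₀ ℝ) : ℝ := ⨆ F : Fam, ∑ γ ∈ F.1, |y γ|

/-- the `n`-th interpolation norm on finitely supported functions -/
def R (n : ℕ) (y : Γ →₀ ℝ) : ℝ := 2 ^ n * rho Fam y + (1 / 2) ^ n * mass y

theorem mass_nonneg (y : Γ →₀ ℝ) : 0 ≤ mass y := Finset.sum_nonneg fun _ _ => abs_nonneg _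

theorem sum_le_mass (y : Γ →₀ ℝ) (F : Finset Γ) : ∑ γ ∈ F, |y γ| ≤ mass y := by
  classical
  have h1 : ∑ γ ∈ F, |y γ| ≤ ∑ γ ∈ F ∪ y.support, |y γ| :=
    Finset.sum_le_sum_of_subset_of_nonneg Finset.subset_union_left (fun _ _ _ => abs_nonneg _)
  have h2 : ∑ γ ∈ y.support, |y γ| = ∑ γ ∈ F ∪ y.support, |y γ| := by
    apply Finset.sum_subset Finset.subset_union_right
    intro x _ hx
    rw [Finsupp.notMem_support_iff.1 hx, abs_zero]
  rw [mass, h2]; exact h1

theorem rho_bdd (y : Γ →₀ ℝ) : BddAbove (Set.range fun F : Fam => ∑ γ ∈ F.1, |y γ|) :=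
  ⟨mass y, by rintro _ ⟨F, rfl⟩; exact sum_le_mass y F.1⟩

theorem rho_nonneg (y : Γ →₀ ℝ) : 0 ≤ rho Fam y :=
  Real.iSup_nonneg fun _ => Finset.sum_nonneg fun _ _ => abs_nonneg _

theorem le_rho (y : Γ →₀ ℝ) {F : Finset Γ} (hF : F ∈ Fam) : ∑ γ ∈ F, |y γ| ≤ rho Fam y :=
  le_ciSup (rho_bdd Fam y) ⟨F, hF⟩

theorem rho_le {y : Γ →₀ ℝ} {C : ℝ} (hC : 0 ≤ C) (h : ∀ F ∈ Fam, ∑ γ ∈ F, |y γ| ≤ C) :
    rho Fam y ≤ C := Real.iSup_le (fun F => h F.1 F.2) hC

theorem mass_add_le (x y : Γ →₀ ℝ) : mass (x + y) ≤ mass x + mass y := by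
  calc mass (x + y) = ∑ γ ∈ (x + y).support, |x γ + y γ| := rfl
    _ ≤ ∑ γ ∈ (x + y).support, (|x γ| + |y γ|) := Finset.sum_le_sum fun _ _ => abs_add_le _ _
    _ = ∑ γ ∈ (x + y).support, |x γ| + ∑ γ ∈ (x + y).support, |y γ| := Finset.sum_add_distrib
    _ ≤ _ := add_le_add (sum_le_mass _ _) (sum_le_mass _ _)

theorem mass_smul (c : ℝ) (x : Γ →₀ ℝ) : mass (c • x) = |c| * mass x := by
  rcases eq_or_ne c 0 with rfl | hc
  · simp [mass]
  · rw [mass, mass, Finsupp.support_smul_eq hc, Finset.mul_sum]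
    exact Finset.sum_congr rfl fun γ _ => by rw [Finsupp.smul_apply, smul_eq_mul, abs_mul]

theorem rho_add_le (x y : Γ →₀ ℝ) : rho Fam (x + y) ≤ rho Fam x + rho Fam y := by
  apply rho_le Fam (add_nonneg (rho_nonneg _ _) (rho_nonneg _ _))
  intro F hF
  calc ∑ γ ∈ F, |(x + y) γ| ≤ ∑ γ ∈ F, (|x γ| + |y γ|) := Finset.sum_le_sum fun _ _ => abs_add_le _ _
    _ = ∑ γ ∈ F, |x γ| + ∑ γ ∈ F, |y γ| := Finset.sum_add_distrib
    _ ≤ _ := add_le_add (le_rho Fam _ hF) (le_rho Fam _ hF)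

theorem rho_smul (c : ℝ) (x : Γ →₀ ℝ) : rho Fam (c • x) = |c| * rho Fam x := by
  rw [rho, rho, Real.mul_iSup_of_nonneg (abs_nonneg c)]
  congr 1; funext F
  rw [Finset.mul_sum]
  exact Finset.sum_congr rfl fun γ _ => by rw [Finsupp.smul_apply, smul_eq_mul, abs_mul]

theorem R_nonneg (n : ℕ) (y : Γ →₀ ℝ) : 0 ≤ R Fam n y :=
  add_nonneg (mul_nonneg (by positivity) (rho_nonneg _ _)) (mul_nonneg (by positivity) (mass_nonneg _))

theorem mass_le_R (n : ℕ) (y : Γ →₀ ℝ) : mass y ≤ 2 ^ n * R Fam n y := by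
  have h1 := rho_nonneg Fam y
  have h2 : (2:ℝ) ^ n * (1 / 2) ^ n = 1 := by rw [← mul_pow]; norm_num
  have h3 : 2 ^ n * R Fam n y = 2 ^ n * (2 ^ n * rho Fam y) + (2 ^ n * (1 / 2) ^ n) * mass y := by
    rw [R]; ring
  rw [h3, h2, one_mul]
  have : 0 ≤ (2:ℝ) ^ n * (2 ^ n * rho Fam y) := by positivity
  linarith

theorem rho_le_R (n : ℕ) (y : Γ →₀ ℝ) : rho Fam y ≤ (1 / 2) ^ n * R Fam n y := by
  have h1 := mass_nonneg y
  have h2 : (1 / 2) ^ n * (2:ℝ) ^ n = 1 := by rw [← mul_pow]; norm_num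
  have h3 : (1 / 2) ^ n * R Fam n y = ((1 / 2) ^ n * 2 ^ n) * rho Fam y + (1 / 2) ^ n * ((1 / 2) ^ n * mass y) := by
    rw [R]; ring
  rw [h3, h2, one_mul]
  have : 0 ≤ (1 / 2:ℝ) ^ n * ((1 / 2) ^ n * mass y) := by positivity
  linarith

theorem mass_eq_zero {y : Γ →₀ ℝ} (h : mass y = 0) : y = 0 := by
  ext γ
  have h1 := sum_le_mass y {γ}
  rw [Finset.sum_singleton, h] at h1
  simpa using le_antisymm h1 (abs_nonneg _)

theorem R_smul (n : ℕ) (c : ℝ) (y : Γ →₀ ℝ) : R Fam n (c • y) = |c| * R Fam n y := by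
  rw [R, R, rho_smul, mass_smul]; ring

theorem R_add_le (n : ℕ) (x y : Γ →₀ ℝ) : R Fam n (x + y) ≤ R Fam n x + R Fam n y := by
  have h1 := mul_le_mul_of_nonneg_left (rho_add_le Fam x y) (by positivity : (0:ℝ) ≤ 2 ^ n)
  have h2 := mul_le_mul_of_nonneg_left (mass_add_le x y) (by positivity : (0:ℝ) ≤ (1 / 2) ^ n)
  rw [R, R, R]; linarith

theorem R_zero (n : ℕ) : R Fam n (0 : Γ →₀ ℝ) = 0 := by
  have h1 := R_smul Fam n 0 (0 : Γ →₀ ℝ)
  rwa [zero_smul, abs_zero, zero_mul] at h1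

theorem R_eq_zero (n : ℕ) {y : Γ →₀ ℝ} (h2 : R Fam n y = 0) : y = 0 := by
  have h1 := mass_le_R Fam n y
  rw [h2, mul_zero] at h1
  exact mass_eq_zero (le_antisymm h1 (mass_nonneg _))

/-- finitely supported functions with the norm `R n` -/
def V (_ : Set (Finset Γ)) (_ : ℕ) : Type := Γ →₀ ℝ

instance (n : ℕ) : AddCommGroup (V Fam n) := inferInstanceAs (AddCommGroup (Γ →₀ ℝ))
instance (n : ℕ) : Module ℝ (V Fam n) := inferInstanceAs (Module ℝ (Γ →₀ ℝ))
instance (n : ℕ) : Norm (V Fam n) := ⟨fun y => R Fam n y⟩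

theorem core (n : ℕ) : NormedSpace.Core ℝ (V Fam n) where
  norm_nonneg y := R_nonneg Fam n y
  norm_smul c y := R_smul Fam n c y
  norm_triangle x y := R_add_le Fam n x y
  norm_eq_zero_iff y := ⟨fun h => R_eq_zero Fam n h, fun h => by rw [h]; exact R_zero Fam n⟩

instance (n : ℕ) : NormedAddCommGroup (V Fam n) := NormedAddCommGroup.ofCore (core Fam n)
instance (n : ℕ) : NormedSpace ℝ (V Fam n) := NormedSpace.ofCore (core Fam n)

/-- identity map -/
def toV (n : ℕ) : (Γ →₀ ℝ) →ₗ[ℝ] V Fam n where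
  toFun y := y
  map_add' _ _ := rfl
  map_smul' _ _ := rfl

theorem norm_toV (n : ℕ) (y : Γ →₀ ℝ) : ‖toV Fam n y‖ = R Fam n y := rfl

/-- the `ℓ₂` sum of the duals -/
abbrev Big : Type := lp (fun n : ℕ => StrongDual ℝ (V Fam n)) 2

/-- evaluation of the `n`-th component at `y` -/
def ev (n : ℕ) (y : Γ →₀ ℝ) : Big Fam →L[ℝ] ℝ :=
  (ContinuousLinearMap.apply ℝ ℝ (toV Fam n y)).comp (lp.evalCLM ℝ _ 2 n)

/-- the diagonal of the `ℓ₂` sum: all components are the same functional -/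
def XS : Submodule ℝ (Big Fam) where
  carrier := {z | ∀ n y, ev Fam n y z = ev Fam 0 y z}
  add_mem' := by
    intro a b ha hb n y
    rw [map_add, map_add, ha n y, hb n y]
  zero_mem' := by intro n y; rw [map_zero, map_zero]
  smul_mem' := by
    intro c a ha n y
    rw [map_smul, map_smul, ha n y]

/-- the Banach space attached to a family of finite sets -/
abbrev X : Type := XS Fam

instance instXgroup : NormedAddCommGroup (X Fam) := inferInstance
instance instXspace : NormedSpace ℝ (X Fam) := inferInstance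
instance instXdual : NormedAddCommGroup (StrongDual ℝ (X Fam)) := inferInstance
instance instXdualspace : NormedSpace ℝ (StrongDual ℝ (X Fam)) := inferInstance

theorem isClosed_XS : IsClosed (XS Fam : Set (Big Fam)) := by
  have : (XS Fam : Set (Big Fam)) = ⋂ n : ℕ, ⋂ y : Γ →₀ ℝ, {z | ev Fam n y z = ev Fam 0 y z} := by
    ext z; simp [XS]
  rw [this]
  exact isClosed_iInter fun n => isClosed_iInter fun y =>
    isClosed_eq (ev Fam n y).continuous (ev Fam 0 y).continuous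

instance : CompleteSpace (X Fam) := (isClosed_XS Fam).completeSpace_coe


/-- finitely supported functions as functionals on `X` -/
def J : (Γ →₀ ℝ) →ₗ[ℝ] StrongDual ℝ (X Fam) where
  toFun y := (ev Fam 0 y).comp (XS Fam).subtypeL
  map_add' x y := by
    ext z
    change (z.1 0) (toV Fam 0 (x + y)) = (z.1 0) (toV Fam 0 x) + (z.1 0) (toV Fam 0 y)
    rw [map_add, map_add]
  map_smul' r x := by
    ext z
    change (z.1 0) (toV Fam 0 (r • x)) = r • (z.1 0) (toV Fam 0 x)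
    rw [map_smul, map_smul]

theorem ev_eq (z : X Fam) (n : ℕ) (y : Γ →₀ ℝ) : (z.1 n) (toV Fam n y) = J Fam y z := z.2 n y

theorem J_bound (z : X Fam) (n : ℕ) (y : Γ →₀ ℝ) : |J Fam y z| ≤ ‖z.1 n‖ * R Fam n y := by
  rw [← ev_eq Fam z n y]
  exact (z.1 n).le_opNorm (toV Fam n y)

theorem comp_le (z : X Fam) (n : ℕ) : ‖z.1 n‖ ≤ ‖z‖ := lp.norm_apply_le_norm (by norm_num) z.1 n

theorem J_bound' (z : X Fam) (n : ℕ) (y : Γ →₀ ℝ) : |J Fam y z| ≤ ‖z‖ * R Fam n y :=
  (J_bound Fam z n y).trans (mul_le_mul_of_nonneg_right (comp_le Fam z n) (R_nonneg _ _ _))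

theorem norm_J_le (n : ℕ) (y : Γ →₀ ℝ) : ‖J Fam y‖ ≤ R Fam n y :=
  ContinuousLinearMap.opNorm_le_bound _ (R_nonneg _ _ _) fun z => by
    rw [mul_comm]; exact J_bound' Fam z n y

theorem comp_norm_le (z : X Fam) (n : ℕ) {C : ℝ} (hC : 0 ≤ C) (h : ∀ y, |J Fam y z| ≤ C * R Fam n y) :
    ‖z.1 n‖ ≤ C :=
  ContinuousLinearMap.opNorm_le_bound _ hC fun y => by
    let y' : Γ →₀ ℝ := y
    have h2 : |(z.1 n) (toV Fam n y')| ≤ C * R Fam n y' := by rw [ev_eq]; exact h y'
    exact h2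

theorem ext_J {z z' : X Fam} (h : ∀ y, J Fam y z = J Fam y z') : z = z' := by
  apply Subtype.ext
  apply lp.ext
  funext n
  ext y
  let y' : Γ →₀ ℝ := y
  have h2 : (z.1 n) (toV Fam n y') = (z'.1 n) (toV Fam n y') := by rw [ev_eq, ev_eq]; exact h y'
  exact h2

theorem sum_sq_le (z : X Fam) (S : Finset ℕ) : ∑ n ∈ S, ‖z.1 n‖ ^ 2 ≤ ‖z‖ ^ 2 := by
  have h := lp.sum_rpow_le_norm_rpow (p := 2) (by norm_num) z.1 S
  simpa using h

theorem summable_sq (z : X Fam) : Summable fun n => ‖z.1 n‖ ^ 2 := by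
  have h := (lp.memℓp z.1).summable (by norm_num)
  simpa using h

theorem norm_le_of_sum (z : X Fam) {C : ℝ} (hC : 0 ≤ C)
    (h : ∀ S : Finset ℕ, ∑ n ∈ S, ‖z.1 n‖ ^ 2 ≤ C ^ 2) : ‖z‖ ≤ C := by
  apply lp.norm_le_of_forall_sum_le (p := 2) (by norm_num) hC
  intro S
  simpa using h S

theorem exists_of (g : ∀ n, StrongDual ℝ (V Fam n))
    (hg : ∀ n y, g n (toV Fam n y) = g 0 (toV Fam 0 y)) {D : ℝ}
    (hS : ∀ S : Finset ℕ, ∑ n ∈ S, ‖g n‖ ^ 2 ≤ D) : ∃ z : X Fam, ∀ n, z.1 n = g n := by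
  have hm : Memℓp (E := fun n => StrongDual ℝ (V Fam n)) g 2 := by
    apply memℓp_gen' (C := D)
    intro s
    simpa using hS s
  exact ⟨⟨⟨g, hm⟩, hg⟩, fun n => rfl⟩

theorem geom_bound (S : Finset ℕ) : ∑ n ∈ S, (((1:ℝ) / 2) ^ n) ^ 2 ≤ 2 := by
  have h1 : ∀ n, (((1:ℝ) / 2) ^ n) ^ 2 = (1 / 4) ^ n := fun n => by
    rw [← pow_mul, mul_comm, pow_mul]; norm_num
  simp_rw [h1]
  have h2 := (summable_geometric_of_lt_one (r := (1:ℝ)/4) (by norm_num) (by norm_num)).sum_le_tsum S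
    (fun _ _ => by positivity)
  rw [tsum_geometric_of_lt_one (by norm_num) (by norm_num)] at h2
  norm_num at h2 ⊢
  linarith

theorem norm_le_of_rho (z : X Fam) {C : ℝ} (hC : 0 ≤ C) (h : ∀ y, |J Fam y z| ≤ C * rho Fam y) :
    ‖z‖ ≤ 2 * C := by
  apply norm_le_of_sum Fam z (by positivity)
  intro S
  have h1 : ∀ n, ‖z.1 n‖ ≤ C * (1 / 2) ^ n := fun n => by
    apply comp_norm_le Fam z n (by positivity)
    intro y
    calc |J Fam y z| ≤ C * rho Fam y := h y
      _ ≤ C * ((1 / 2) ^ n * R Fam n y) := mul_le_mul_of_nonneg_left (rho_le_R Fam n y) hC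
      _ = _ := by ring
  calc ∑ n ∈ S, ‖z.1 n‖ ^ 2 ≤ ∑ n ∈ S, C ^ 2 * ((1 / 2) ^ n) ^ 2 := by
        apply Finset.sum_le_sum
        intro n _
        rw [← mul_pow]
        exact pow_le_pow_left₀ (norm_nonneg _) (h1 n) 2
    _ = C ^ 2 * ∑ n ∈ S, ((1 / 2) ^ n) ^ 2 := by rw [Finset.mul_sum]
    _ ≤ C ^ 2 * 2 := mul_le_mul_of_nonneg_left (geom_bound S) (by positivity)
    _ ≤ (2 * C) ^ 2 := by nlinarith [sq_nonneg C]

theorem abs_le_rho (hsing : ∀ γ, ({γ} : Finset Γ) ∈ Fam) (y : Γ →₀ ℝ) (γ : Γ) : |y γ| ≤ rho Fam y := by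
  have := le_rho Fam y (hsing γ)
  rwa [Finset.sum_singleton] at this

theorem exists_e (hsing : ∀ γ, ({γ} : Finset Γ) ∈ Fam) (γ : Γ) :
    ∃ z : X Fam, ∀ y, J Fam y z = y γ := by
  let l : ∀ n, V Fam n →ₗ[ℝ] ℝ := fun n =>
    { toFun := fun y => (show Γ →₀ ℝ from y) γ
      map_add' := fun _ _ => rfl
      map_smul' := fun _ _ => rfl }
  have hb : ∀ n (y : V Fam n), ‖l n y‖ ≤ (1 / 2) ^ n * ‖y‖ := fun n y =>
    (abs_le_rho Fam hsing y γ).trans (rho_le_R Fam n y)
  let g : ∀ n, StrongDual ℝ (V Fam n) := fun n => (l n).mkContinuous ((1 / 2) ^ n) (hb n)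
  have hg : ∀ n, ‖g n‖ ≤ (1 / 2) ^ n := fun n => (l n).mkContinuous_norm_le (by positivity) (hb n)
  obtain ⟨z, hz⟩ := exists_of Fam g (fun n y => rfl) (D := 2) (fun S => by
    refine le_trans (Finset.sum_le_sum fun n _ => ?_) (geom_bound S)
    exact pow_le_pow_left₀ (norm_nonneg _) (hg n) 2)
  refine ⟨z, fun y => ?_⟩
  rw [← ev_eq Fam z 0 y, hz 0]
  rfl

/-- coordinate functionals -/
def cd (γ : Γ) : StrongDual ℝ (X Fam) := J Fam (Finsupp.single γ 1)

theorem J_eq_sum (y : Γ →₀ ℝ) (z : X Fam) : J Fam y z = ∑ γ ∈ y.support, y γ * cd Fam γ z := by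
  conv_lhs => rw [← Finsupp.sum_single y]
  rw [Finsupp.sum, map_sum, _root_.sum_apply]
  refine Finset.sum_congr rfl fun γ _ => ?_
  rw [cd]
  have : Finsupp.single γ (y γ) = y γ • Finsupp.single γ (1:ℝ) := by simp
  rw [this, map_smul]
  rfl

theorem R_single_le (γ : Γ) : R Fam 0 (Finsupp.single γ 1) ≤ 2 := by
  have h1 : mass (Finsupp.single γ (1:ℝ)) ≤ 1 := by
    rw [mass]
    calc _ ≤ ∑ x ∈ ({γ} : Finset Γ), |(Finsupp.single γ (1:ℝ)) x| :=
          Finset.sum_le_sum_of_subset_of_nonneg Finsupp.support_single_subset (fun _ _ _ => abs_nonneg _)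
      _ = 1 := by simp
  have h2 : rho Fam (Finsupp.single γ (1:ℝ)) ≤ 1 :=
    rho_le Fam zero_le_one fun F _ => (sum_le_mass _ F).trans h1
  rw [R]; norm_num; linarith

theorem cd_bound (γ : Γ) (z : X Fam) : |cd Fam γ z| ≤ 2 * ‖z‖ := by
  have h := J_bound' Fam z 0 (Finsupp.single γ 1)
  have h2 := R_single_le Fam γ
  calc |cd Fam γ z| ≤ ‖z‖ * R Fam 0 (Finsupp.single γ 1) := h
    _ ≤ ‖z‖ * 2 := mul_le_mul_of_nonneg_left h2 (norm_nonneg _)
    _ = _ := by ring

theorem comp_le_sup (z : X Fam) {s : ℝ} (hs0 : 0 ≤ s) (hs : ∀ γ, |cd Fam γ z| ≤ s) (n : ℕ) :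
    ‖z.1 n‖ ≤ 2 ^ n * s := by
  apply comp_norm_le Fam z n (by positivity)
  intro y
  rw [J_eq_sum]
  calc |∑ γ ∈ y.support, y γ * cd Fam γ z| ≤ ∑ γ ∈ y.support, |y γ * cd Fam γ z| :=
        Finset.abs_sum_le_sum_abs _ _
    _ ≤ ∑ γ ∈ y.support, |y γ| * s := Finset.sum_le_sum fun γ _ => by
        rw [abs_mul]; exact mul_le_mul_of_nonneg_left (hs γ) (abs_nonneg _)
    _ = s * mass y := by rw [mass, ← Finset.sum_mul, mul_comm]
    _ ≤ s * (2 ^ n * R Fam n y) := mul_le_mul_of_nonneg_left (mass_le_R Fam n y) hs0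
    _ = _ := by ring

/-- every infinite set has an infinite subset meeting each member in at most two points -/
def Star : Prop := ∀ M : Set Γ, M.Infinite → ∃ g : ℕ → Γ, Function.Injective g ∧ (∀ n, g n ∈ M) ∧
  ∀ F ∈ Fam, ∀ i j k, i ≠ j → i ≠ k → j ≠ k → ¬ (g i ∈ F ∧ g j ∈ F ∧ g k ∈ F)

theorem finite_large (hstar : Star Fam) (z : X Fam) {ε : ℝ} (hε : 0 < ε) :
    {γ | ε ≤ |cd Fam γ z|}.Finite := by
  classical
  by_contra hinf
  obtain ⟨g, hg, hgM, hgF⟩ := hstar _ hinf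
  -- key estimate
  have key : ∀ N n : ℕ, N * ε ≤ ‖z‖ * (2 ^ n * 2 + (1 / 2) ^ n * N) := by
    intro N n
    let s : ℕ → ℝ := fun i => if 0 ≤ cd Fam (g i) z then 1 else -1
    have hs : ∀ i, |s i| = 1 := fun i => by
      simp only [s]; split_ifs <;> simp
    have hs2 : ∀ i, s i * cd Fam (g i) z = |cd Fam (g i) z| := fun i => by
      simp only [s]; split_ifs with h
      · rw [abs_of_nonneg h, one_mul]
      · rw [abs_of_neg (not_le.1 h)]; ring
    let y : Γ →₀ ℝ := ∑ i ∈ Finset.range N, Finsupp.single (g i) (s i)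
    have hJ : J Fam y z = ∑ i ∈ Finset.range N, |cd Fam (g i) z| := by
      simp only [y]
      rw [map_sum, _root_.sum_apply]
      refine Finset.sum_congr rfl fun i _ => ?_
      rw [← hs2 i, cd]
      have : Finsupp.single (g i) (s i) = s i • Finsupp.single (g i) (1:ℝ) := by simp
      rw [this, map_smul]
      rfl
    have hJ2 : N * ε ≤ J Fam y z := by
      rw [hJ]
      calc (N:ℝ) * ε = ∑ i ∈ Finset.range N, ε := by simp
        _ ≤ _ := Finset.sum_le_sum fun i _ => hgM i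
    have hcount : ∀ F : Finset Γ, ∑ γ ∈ F, |y γ| ≤ ((Finset.range N).filter fun i => g i ∈ F).card := by
      intro F
      calc ∑ γ ∈ F, |y γ| ≤ ∑ γ ∈ F, ∑ i ∈ Finset.range N, |(Finsupp.single (g i) (s i)) γ| := by
            apply Finset.sum_le_sum
            intro γ _
            simp only [y]
            rw [Finsupp.finsetSum_apply]
            exact Finset.abs_sum_le_sum_abs _ _
        _ = ∑ i ∈ Finset.range N, ∑ γ ∈ F, |(Finsupp.single (g i) (s i)) γ| := Finset.sum_comm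
        _ = ∑ i ∈ Finset.range N, (if g i ∈ F then (1:ℝ) else 0) := by
            refine Finset.sum_congr rfl fun i _ => ?_
            have : ∀ γ, |(Finsupp.single (g i) (s i)) γ| = if g i = γ then (1:ℝ) else 0 := fun γ => by
              rw [Finsupp.single_apply]; split_ifs
              · exact hs i
              · simp
            simp_rw [this]
            rw [Finset.sum_ite_eq]
        _ = _ := by rw [Finset.sum_ite]; simp
    have hrho : rho Fam y ≤ 2 := by
      apply rho_le Fam (by norm_num)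
      intro F hF
      refine (hcount F).trans ?_
      by_contra hlt
      rw [not_le] at hlt
      have : 2 < ((Finset.range N).filter fun i => g i ∈ F).card := by exact_mod_cast hlt
      obtain ⟨a, ha, b, hb, c, hc, hab, hac, hbc⟩ := Finset.two_lt_card.1 this
      exact hgF F hF a b c hab hac hbc
        ⟨(Finset.mem_filter.1 ha).2, (Finset.mem_filter.1 hb).2, (Finset.mem_filter.1 hc).2⟩
    have hmass : mass y ≤ N := by
      rw [mass]
      refine (hcount _).trans ?_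
      have := Finset.card_filter_le (Finset.range N) (fun i => g i ∈ y.support)
      rw [Finset.card_range] at this
      exact_mod_cast this
    have hR : R Fam n y ≤ 2 ^ n * 2 + (1 / 2) ^ n * N := by
      rw [R]
      exact add_le_add (mul_le_mul_of_nonneg_left hrho (by positivity))
        (mul_le_mul_of_nonneg_left hmass (by positivity))
    calc N * ε ≤ J Fam y z := hJ2
      _ ≤ |J Fam y z| := le_abs_self _
      _ ≤ ‖z‖ * R Fam n y := J_bound' Fam z n y
      _ ≤ _ := mul_le_mul_of_nonneg_left hR (norm_nonneg _)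
  obtain ⟨n, hn⟩ := exists_pow_lt_of_lt_one (show 0 < ε / (2 * (‖z‖ + 1)) by positivity)
    (show (1:ℝ) / 2 < 1 by norm_num)
  have hn2 : ‖z‖ * (1 / 2) ^ n ≤ ε / 2 := by
    have h1 : (‖z‖ + 1) * (1 / 2) ^ n ≤ ε / 2 := by
      have := mul_le_mul_of_nonneg_left hn.le (by positivity : 0 ≤ ‖z‖ + 1)
      have h2 : (‖z‖ + 1) * (ε / (2 * (‖z‖ + 1))) = ε / 2 := by field_simp
      linarith
    have h3 : (0:ℝ) ≤ (1 / 2) ^ n := by positivity
    nlinarith
  obtain ⟨N, hN⟩ := exists_nat_gt (‖z‖ * (2 ^ n * 2) / (ε / 2))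
  rw [div_lt_iff₀ (by positivity)] at hN
  have := key N n
  have hN0 : (0:ℝ) ≤ N := Nat.cast_nonneg _
  nlinarith


theorem halving (z : ℕ → X Fam) (hz : ∀ k, ‖z k‖ ≤ 1) (s : ℕ → ℝ) (hs0 : ∀ k, 0 ≤ s k)
    (hs : Tendsto s atTop (𝓝 0)) (hzs : ∀ k γ, |cd Fam γ (z k)| ≤ s k) (j : ℕ) :
    ∀ k, ∃ w ∈ convexHull ℝ (z '' Set.Ici k), ‖w‖ ≤ (4 / 5) ^ j := by
  classical
  induction j with
  | zero =>
    intro k
    exact ⟨z k, subset_convexHull ℝ _ ⟨k, Set.mem_Ici.2 le_rfl, rfl⟩, by simpa using hz k⟩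
  | succ j ih =>
    intro k
    obtain ⟨w, hw, hwn⟩ := ih k
    set t : ℝ := (4 / 5) ^ j with ht
    have ht0 : 0 < t := by positivity
    have ht1 : t ≤ 1 := pow_le_one₀ (by norm_num) (by norm_num)
    set δ : ℝ := t ^ 2 / 10 with hδ
    have hδ0 : 0 < δ := by positivity
    obtain ⟨S0, hS0⟩ := summable_iff_vanishing_norm.1 (summable_sq Fam w) (δ ^ 2) (by positivity)
    -- choose a late index
    have hlate : ∀ n : ℕ, ∀ᶠ l in atTop, 2 ^ n * s l ≤ δ / (S0.card + 1) := by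
      intro n
      have h1 : Tendsto (fun l => 2 ^ n * s l) atTop (𝓝 (2 ^ n * 0)) := hs.const_mul _
      rw [mul_zero] at h1
      exact (h1.eventually (gt_mem_nhds (by positivity : 0 < δ / (S0.card + 1)))).mono fun _ h => le_of_lt h
    have hlate2 : ∀ᶠ l in atTop, ∀ n ∈ S0, 2 ^ n * s l ≤ δ / (S0.card + 1) := by
      rw [Filter.eventually_all_finset]
      exact fun n _ => hlate n
    obtain ⟨k', hk'⟩ := Filter.eventually_atTop.1 hlate2
    obtain ⟨w', hw', hwn'⟩ := ih (max k k')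
    have hsmall : ∀ n ∈ S0, ‖w'.1 n‖ ≤ δ / (S0.card + 1) := by
      intro n hn
      have hconv : Convex ℝ {u : X Fam | ‖u.1 n‖ ≤ δ / (S0.card + 1)} := by
        have h1 := (convexOn_univ_norm (E := StrongDual ℝ (V Fam n))).convex_le (δ / (S0.card + 1))
        have h2 := h1.is_linear_preimage (f := fun u : X Fam => u.1 n)
          ⟨fun _ _ => rfl, fun _ _ => rfl⟩
        simpa using h2
      have hsub : z '' Set.Ici (max k k') ⊆ {u : X Fam | ‖u.1 n‖ ≤ δ / (S0.card + 1)} := by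
        rintro _ ⟨l, hl, rfl⟩
        exact (comp_le_sup Fam (z l) (hs0 l) (hzs l) n).trans
          (hk' l (le_trans (le_max_right _ _) hl) n hn)
      exact convexHull_min hsub hconv hw'
    have hw'2 : w' ∈ convexHull ℝ (z '' Set.Ici k) := by
      refine convexHull_mono (Set.image_mono ?_) hw'
      exact Set.Ici_subset_Ici.2 (le_max_left _ _)
    refine ⟨(1 / 2 : ℝ) • w + (1 / 2 : ℝ) • w', ?_, ?_⟩
    · exact (convex_convexHull ℝ _) hw hw'2 (by norm_num) (by norm_num) (by norm_num)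
    · have hsum : ‖w + w'‖ ≤ 2 * (4 / 5) ^ (j + 1) := by
        apply norm_le_of_sum Fam (w + w') (by positivity)
        intro S
        have hpt : ∀ n, ‖(w + w').1 n‖ ^ 2 ≤ ‖w.1 n‖ ^ 2 + ‖w'.1 n‖ ^ 2 + 2 * ‖w.1 n‖ * ‖w'.1 n‖ := by
          intro n
          have h1 : ‖(w + w').1 n‖ ≤ ‖w.1 n‖ + ‖w'.1 n‖ := norm_add_le _ _
          have h2 := pow_le_pow_left₀ (norm_nonneg _) h1 2
          nlinarith
        have hA : ∑ n ∈ S, ‖w.1 n‖ ^ 2 ≤ t ^ 2 :=
          (sum_sq_le Fam w S).trans (pow_le_pow_left₀ (norm_nonneg _) hwn 2)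
        have hB : ∑ n ∈ S, ‖w'.1 n‖ ^ 2 ≤ t ^ 2 :=
          (sum_sq_le Fam w' S).trans (pow_le_pow_left₀ (norm_nonneg _) hwn' 2)
        have hC1 : ∑ n ∈ S.filter (· ∈ S0), 2 * ‖w.1 n‖ * ‖w'.1 n‖ ≤ 2 * δ := by
          have h1 : ∀ n ∈ S.filter (· ∈ S0), 2 * ‖w.1 n‖ * ‖w'.1 n‖ ≤ 2 * (δ / (S0.card + 1)) := by
            intro n hn
            have h2 := hsmall n (Finset.mem_filter.1 hn).2
            have h3 : ‖w.1 n‖ ≤ 1 := (comp_le Fam w n).trans (hwn.trans ht1)
            have h4 := norm_nonneg (w.1 n)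
            have h5 := norm_nonneg (w'.1 n)
            nlinarith
          refine (Finset.sum_le_sum h1).trans ?_
          rw [Finset.sum_const, nsmul_eq_mul]
          have h2 : ((S.filter (· ∈ S0)).card : ℝ) ≤ S0.card := by
            exact_mod_cast Finset.card_le_card (fun x hx => (Finset.mem_filter.1 hx).2)
          have h3 : (S0.card : ℝ) * (2 * (δ / (S0.card + 1))) ≤ 2 * δ := by
            have : (S0.card : ℝ) * (2 * (δ / (S0.card + 1))) = 2 * δ * (S0.card / (S0.card + 1)) := by ring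
            rw [this]
            have h4 : (S0.card : ℝ) / (S0.card + 1) ≤ 1 := by
              rw [div_le_one (by positivity)]; linarith
            nlinarith
          exact (mul_le_mul_of_nonneg_right h2 (by positivity)).trans h3
        have hC2 : ∑ n ∈ S.filter (fun n => ¬ n ∈ S0), 2 * ‖w.1 n‖ * ‖w'.1 n‖ ≤ 2 * δ := by
          have h1 : ∀ n ∈ S.filter (fun n => ¬ n ∈ S0), 2 * ‖w.1 n‖ * ‖w'.1 n‖ ≤
              (1 / δ) * ‖w.1 n‖ ^ 2 + δ * ‖w'.1 n‖ ^ 2 := by
            intro n _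
            have h2 : 0 ≤ (1 / δ) * (‖w.1 n‖ - δ * ‖w'.1 n‖) ^ 2 := by positivity
            have h3 : (1 / δ) * (‖w.1 n‖ - δ * ‖w'.1 n‖) ^ 2 =
              (1 / δ) * ‖w.1 n‖ ^ 2 + δ * ‖w'.1 n‖ ^ 2 - 2 * ‖w.1 n‖ * ‖w'.1 n‖ := by
              field_simp; ring
            linarith
          refine (Finset.sum_le_sum h1).trans ?_
          rw [Finset.sum_add_distrib, ← Finset.mul_sum, ← Finset.mul_sum]
          have h4 : ∑ n ∈ S.filter (fun n => ¬ n ∈ S0), ‖w.1 n‖ ^ 2 ≤ δ ^ 2 := by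
            have := hS0 (S.filter (fun n => ¬ n ∈ S0)) (by
              rw [Finset.disjoint_left]; intro n hn; exact (Finset.mem_filter.1 hn).2)
            exact ((le_abs_self _).trans_lt this).le
          have h5 : ∑ n ∈ S.filter (fun n => ¬ n ∈ S0), ‖w'.1 n‖ ^ 2 ≤ 1 := by
            refine (sum_sq_le Fam w' _).trans ?_
            exact pow_le_one₀ (norm_nonneg _) (hwn'.trans ht1)
          have h6 : 1 / δ * ∑ n ∈ S.filter (fun n => ¬ n ∈ S0), ‖w.1 n‖ ^ 2 ≤ 1 / δ * δ ^ 2 :=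
            mul_le_mul_of_nonneg_left h4 (by positivity)
          have h7 : 1 / δ * δ ^ 2 = δ := by field_simp
          nlinarith
        have hC : ∑ n ∈ S, 2 * ‖w.1 n‖ * ‖w'.1 n‖ ≤ 4 * δ := by
          rw [← Finset.sum_filter_add_sum_filter_not S (· ∈ S0)]
          linarith
        calc ∑ n ∈ S, ‖(w + w').1 n‖ ^ 2
            ≤ ∑ n ∈ S, (‖w.1 n‖ ^ 2 + ‖w'.1 n‖ ^ 2 + 2 * ‖w.1 n‖ * ‖w'.1 n‖) :=
              Finset.sum_le_sum fun n _ => hpt n
          _ = ∑ n ∈ S, ‖w.1 n‖ ^ 2 + ∑ n ∈ S, ‖w'.1 n‖ ^ 2 + ∑ n ∈ S, 2 * ‖w.1 n‖ * ‖w'.1 n‖ := by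
              rw [Finset.sum_add_distrib, Finset.sum_add_distrib]
          _ ≤ t ^ 2 + t ^ 2 + 4 * δ := by linarith
          _ ≤ (2 * (4 / 5) ^ (j + 1)) ^ 2 := by
              have hp : ((4:ℝ) / 5) ^ (j + 1) = t * (4 / 5) := by rw [ht, pow_succ]
              rw [hp, hδ]; nlinarith [sq_nonneg t]
      rw [← smul_add, norm_smul, Real.norm_of_nonneg (by norm_num : (0:ℝ) ≤ 1 / 2)]
      linarith

theorem no_gap (f : StrongDual ℝ (X Fam)) (z : ℕ → X Fam) (hz : ∀ k, ‖z k‖ ≤ 1) (s : ℕ → ℝ)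
    (hs0 : ∀ k, 0 ≤ s k) (hs : Tendsto s atTop (𝓝 0)) (hzs : ∀ k γ, |cd Fam γ (z k)| ≤ s k)
    {ε : ℝ} (hε : 0 < ε) (h : ∀ k, ε ≤ f (z k)) : False := by
  obtain ⟨j, hj⟩ := exists_pow_lt_of_lt_one (show 0 < ε / (‖f‖ + 1) by positivity)
    (show (4:ℝ) / 5 < 1 by norm_num)
  obtain ⟨w, hw, hwn⟩ := halving Fam z hz s hs0 hs hzs j 0
  have hconv : Convex ℝ {u : X Fam | ε ≤ f u} :=
    convex_halfSpace_ge (𝕜 := ℝ) (f := fun u : X Fam => f u)
      ⟨fun _ _ => map_add _ _ _, fun _ _ => map_smul _ _ _⟩ ε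
  have hfw : ε ≤ f w := by
    refine convexHull_min ?_ hconv hw
    rintro _ ⟨l, _, rfl⟩; exact h l
  have h1 : f w ≤ ‖f‖ * ‖w‖ := (le_abs_self _).trans (f.le_opNorm w)
  have h2 : ‖f‖ * ‖w‖ ≤ (‖f‖ + 1) * (4 / 5) ^ j := by
    have h3 := norm_nonneg f
    have h4 := norm_nonneg w
    nlinarith
  have h3 : (‖f‖ + 1) * (4 / 5) ^ j < ε := by
    rw [lt_div_iff₀ (by positivity)] at hj
    linarith
  linarith


/-- density of the finitely supported functionals -/
theorem dense_aux (hstar : Star Fam) (e : Γ → X Fam)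
    (he : ∀ γ y, J Fam y (e γ) = y γ) (f : StrongDual ℝ (X Fam)) {ε : ℝ} (hε : 0 < ε) :
    ∃ A : Finset Γ, ∀ x : X Fam, ‖x‖ ≤ 1 → |f x - ∑ γ ∈ A, f (e γ) * cd Fam γ x| ≤ ε := by
  classical
  by_contra hcon
  push Not at hcon
  -- unit vectors off a finite set
  have H : ∀ A : Finset Γ, ∃ u : X Fam, ‖u‖ ≤ 1 ∧ ε < f u ∧ ∀ γ ∈ A, cd Fam γ u = 0 := by
    intro A
    obtain ⟨x, hx, hfx⟩ := hcon A
    let u : X Fam := x - ∑ γ ∈ A, cd Fam γ x • e γ
    have hJu : ∀ y, J Fam y u = J Fam (y.filter (fun γ => γ ∉ A)) x := by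
      intro y
      have h1 : J Fam y u = J Fam y x - ∑ γ ∈ A, cd Fam γ x * y γ := by
        simp only [u, map_sub, map_sum, map_smul, smul_eq_mul, he]
      have h2 : y = y.filter (fun γ => γ ∈ A) + y.filter (fun γ => γ ∉ A) :=
        (Finsupp.filter_add_filter_not y _).symm
      have h3 : J Fam (y.filter (fun γ => γ ∈ A)) x = ∑ γ ∈ A, cd Fam γ x * y γ := by
        rw [J_eq_sum]
        have h4 : ∑ γ ∈ (y.filter (fun γ => γ ∈ A)).support, (y.filter (fun γ => γ ∈ A)) γ * cd Fam γ x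
            = ∑ γ ∈ A, (y.filter (fun γ => γ ∈ A)) γ * cd Fam γ x := by
          apply Finset.sum_subset
          · intro γ hγ
            rw [Finsupp.support_filter, Finset.mem_filter] at hγ
            exact hγ.2
          · intro γ _ hγ
            rw [Finsupp.notMem_support_iff.1 hγ, zero_mul]
        rw [h4]
        refine Finset.sum_congr rfl fun γ hγ => ?_
        rw [Finsupp.filter_apply_pos _ _ hγ, mul_comm]
      have h5 : J Fam y x = J Fam (y.filter (fun γ => γ ∈ A)) x + J Fam (y.filter (fun γ => γ ∉ A)) x := by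
        conv_lhs => rw [h2]
        rw [map_add]; rfl
      rw [h1, h5, h3]; ring
    have hRf : ∀ n y, R Fam n (y.filter (fun γ => γ ∉ A)) ≤ R Fam n y := by
      intro n y
      have hpt : ∀ γ, |(y.filter (fun γ => γ ∉ A)) γ| ≤ |y γ| := by
        intro γ
        rcases Classical.em (γ ∉ A) with h | h
        · rw [Finsupp.filter_apply_pos (fun γ => γ ∉ A) _ h]
        · rw [Finsupp.filter_apply_neg (fun γ => γ ∉ A) _ h, abs_zero]; exact abs_nonneg _
      have h1 : rho Fam (y.filter (fun γ => γ ∉ A)) ≤ rho Fam y :=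
        rho_le Fam (rho_nonneg _ _) fun F hF =>
          (Finset.sum_le_sum fun γ _ => hpt γ).trans (le_rho Fam y hF)
      have h2 : mass (y.filter (fun γ => γ ∉ A)) ≤ mass y := by
        rw [mass]
        exact (Finset.sum_le_sum fun γ _ => hpt γ).trans (sum_le_mass y _)
      exact add_le_add (mul_le_mul_of_nonneg_left h1 (by positivity))
        (mul_le_mul_of_nonneg_left h2 (by positivity))
    have hun : ‖u‖ ≤ 1 := by
      apply norm_le_of_sum Fam u zero_le_one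
      intro S
      refine le_trans (Finset.sum_le_sum fun n _ => ?_) ((sum_sq_le Fam x S).trans ?_)
      · refine pow_le_pow_left₀ (norm_nonneg _) ?_ 2
        apply comp_norm_le Fam u n (norm_nonneg _)
        intro y
        rw [hJu]
        exact (J_bound Fam x n _).trans (mul_le_mul_of_nonneg_left (hRf n y) (norm_nonneg _))
      · exact pow_le_pow_left₀ (norm_nonneg _) hx 2
    have hfu : f u = f x - ∑ γ ∈ A, f (e γ) * cd Fam γ x := by
      simp only [u, map_sub, map_sum, map_smul, smul_eq_mul]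
      congr 1
      exact Finset.sum_congr rfl fun γ _ => mul_comm _ _
    have hcu : ∀ γ ∈ A, cd Fam γ u = 0 := by
      intro γ hγ
      rw [cd, hJu]
      have : (Finsupp.single γ (1:ℝ)).filter (fun γ => γ ∉ A) = 0 := by
        ext x
        rcases Classical.em (x ∉ A) with h | h
        · rw [Finsupp.filter_apply_pos (fun γ => γ ∉ A) _ h, Finsupp.single_apply_eq_zero.2]
          · rfl
          · rintro rfl; exact absurd hγ h
        · rw [Finsupp.filter_apply_neg (fun γ => γ ∉ A) _ h]; rfl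
      rw [this, map_zero]; rfl
    rw [← hfu] at hfx
    rcases le_or_gt 0 (f u) with h0 | h0
    · rw [abs_of_nonneg h0] at hfx
      exact ⟨u, hun, hfx, hcu⟩
    · rw [abs_of_neg h0] at hfx
      refine ⟨-u, by rwa [norm_neg], by rwa [map_neg], fun γ hγ => ?_⟩
      rw [map_neg, hcu γ hγ, neg_zero]
  choose U hU1 hU2 hU3 using H
  -- averages with small coordinates
  have avg : ∀ N : ℕ, ∃ v : X Fam, ‖v‖ ≤ 1 ∧ ε ≤ f v ∧ ∀ γ, |cd Fam γ v| ≤ 3 / ((N : ℝ) + 1) := by
    intro N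
    have hδ : (0:ℝ) < 1 / ((N : ℝ) + 1) := by positivity
    let B : X Fam → Finset Γ := fun u => (finite_large Fam hstar u hδ).toFinset
    let A : ℕ → Finset Γ := fun k => Nat.rec ∅ (fun _ S => S ∪ B (U S)) k
    have hA : ∀ k, A (k + 1) = A k ∪ B (U (A k)) := fun k => rfl
    have hsum : ∀ k : ℕ, ∀ γ, (γ ∉ A k → ∑ i ∈ Finset.range k, |cd Fam γ (U (A i))| ≤ k * (1 / ((N : ℝ) + 1))) ∧
        ∑ i ∈ Finset.range k, |cd Fam γ (U (A i))| ≤ k * (1 / ((N : ℝ) + 1)) + 2 := by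
      intro k γ
      induction k with
      | zero => simp
      | succ k ih =>
        rw [Finset.sum_range_succ, hA]
        push_cast
        rcases Classical.em (γ ∈ A k) with hγ | hγ
        · rw [hU3 (A k) γ hγ, abs_zero, add_zero]
          refine ⟨fun h => absurd (Finset.mem_union_left _ hγ) h, ?_⟩
          linarith [ih.2]
        · have h1 := ih.1 hγ
          have h2 : |cd Fam γ (U (A k))| ≤ 2 := (cd_bound Fam γ _).trans (by linarith [hU1 (A k)])
          refine ⟨fun h => ?_, by linarith⟩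
          have h3 : γ ∉ B (U (A k)) := fun h' => h (Finset.mem_union_right _ h')
          have h4 : |cd Fam γ (U (A k))| < 1 / ((N : ℝ) + 1) := by
            by_contra h5
            exact h3 ((Set.Finite.mem_toFinset _).2 (not_lt.1 h5))
          linarith
    let v : X Fam := (1 / ((N : ℝ) + 1)) • ∑ i ∈ Finset.range (N + 1), U (A i)
    have hN : (0:ℝ) < (N : ℝ) + 1 := by positivity
    refine ⟨v, ?_, ?_, ?_⟩
    · rw [norm_smul, Real.norm_of_nonneg hδ.le]
      have h1 : ‖∑ i ∈ Finset.range (N + 1), U (A i)‖ ≤ (N : ℝ) + 1 := by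
        refine (norm_sum_le _ _).trans ?_
        refine (Finset.sum_le_sum fun i _ => hU1 (A i)).trans ?_
        simp
      calc _ ≤ 1 / ((N : ℝ) + 1) * ((N : ℝ) + 1) := mul_le_mul_of_nonneg_left h1 hδ.le
        _ = 1 := by field_simp
    · have h1 : ((N : ℝ) + 1) * ε ≤ ∑ i ∈ Finset.range (N + 1), f (U (A i)) := by
        calc ((N : ℝ) + 1) * ε = ∑ i ∈ Finset.range (N + 1), ε := by simp
          _ ≤ _ := Finset.sum_le_sum fun i _ => (hU2 (A i)).le
      have h2 : f v = 1 / ((N : ℝ) + 1) * ∑ i ∈ Finset.range (N + 1), f (U (A i)) := by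
        simp only [v, map_smul, map_sum, smul_eq_mul]
      rw [h2]
      calc ε = 1 / ((N : ℝ) + 1) * (((N : ℝ) + 1) * ε) := by field_simp
        _ ≤ _ := mul_le_mul_of_nonneg_left h1 hδ.le
    · intro γ
      have h2 : cd Fam γ v = 1 / ((N : ℝ) + 1) * ∑ i ∈ Finset.range (N + 1), cd Fam γ (U (A i)) := by
        simp only [v, map_smul, map_sum, smul_eq_mul]
      rw [h2, abs_mul, abs_of_pos hδ]
      have h3 := (hsum (N + 1) γ).2
      have h4 : |∑ i ∈ Finset.range (N + 1), cd Fam γ (U (A i))| ≤ 3 := by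
        refine (Finset.abs_sum_le_sum_abs _ _).trans (h3.trans ?_)
        push_cast
        have : ((N : ℝ) + 1) * (1 / ((N : ℝ) + 1)) = 1 := by field_simp
        linarith
      calc 1 / ((N : ℝ) + 1) * |∑ i ∈ Finset.range (N + 1), cd Fam γ (U (A i))|
          ≤ 1 / ((N : ℝ) + 1) * 3 := mul_le_mul_of_nonneg_left h4 hδ.le
        _ = 3 / ((N : ℝ) + 1) := by ring
  choose v hv1 hv2 hv3 using avg
  have hs : Tendsto (fun N : ℕ => 3 / ((N : ℝ) + 1)) atTop (𝓝 0) :=
    tendsto_const_div_atTop_nhds_zero_nat 3 |>.comp (tendsto_add_atTop_nat 1) |>.congr (by intro n; simp)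
  exact no_gap Fam f v hv1 _ (fun k => by positivity) hs hv3 hε hv2

theorem reflexive (hsing : ∀ γ, ({γ} : Finset Γ) ∈ Fam) (hstar : Star Fam) :
    Function.Surjective (NormedSpace.inclusionInDoubleDual ℝ (X Fam)) := by
  classical
  choose e he using exists_e Fam hsing
  intro φ
  let l : ∀ n, V Fam n →ₗ[ℝ] ℝ := fun n =>
    { toFun := fun y => φ (J Fam (show Γ →₀ ℝ from y))
      map_add' := fun x y => by
        change φ (J Fam ((show Γ →₀ ℝ from x) + (show Γ →₀ ℝ from y))) = _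
        rw [map_add, map_add]
      map_smul' := fun r x => by
        change φ (J Fam (r • (show Γ →₀ ℝ from x))) = _
        rw [map_smul, map_smul]; rfl }
  have hb : ∀ n (y : V Fam n), ‖l n y‖ ≤ ‖φ‖ * ‖y‖ := fun n y =>
    (φ.le_opNorm _).trans (mul_le_mul_of_nonneg_left (norm_J_le Fam n y) (norm_nonneg _))
  let g : ∀ n, StrongDual ℝ (V Fam n) := fun n => (l n).mkContinuous ‖φ‖ (hb n)
  have hgy : ∀ n (y : Γ →₀ ℝ), g n (toV Fam n y) = φ (J Fam y) := fun n y => rfl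
  have hS : ∀ S : Finset ℕ, ∑ n ∈ S, ‖g n‖ ^ 2 ≤ ‖φ‖ ^ 2 := by
    intro S
    set T := ∑ n ∈ S, ‖g n‖ ^ 2 with hT
    set Q := ∑ n ∈ S, ‖g n‖ with hQ
    have hT0 : 0 ≤ T := Finset.sum_nonneg fun _ _ => by positivity
    have hQ0 : 0 ≤ Q := Finset.sum_nonneg fun _ _ => norm_nonneg _
    have main : ∀ η : ℝ, 0 < η → T - η * Q ≤ ‖φ‖ * Real.sqrt T := by
      intro η hη
      have hex : ∀ n, ∃ y : Γ →₀ ℝ, R Fam n y ≤ 1 ∧ ‖g n‖ - η ≤ φ (J Fam y) := by
        intro n
        by_contra hno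
        push Not at hno
        have hle : ‖g n‖ ≤ max (‖g n‖ - η) 0 := by
          apply ContinuousLinearMap.opNorm_le_bound _ (le_max_right _ _)
          intro y
          let y' : Γ →₀ ℝ := y
          have hyn : ‖y‖ = R Fam n y' := rfl
          have hgn : g n y = φ (J Fam y') := rfl
          rcases (R_nonneg Fam n y').eq_or_lt with h0 | h0
          · have : y' = 0 := R_eq_zero Fam n h0.symm
            rw [hgn, hyn, ← h0, this, map_zero, map_zero]; simp
          · have h1 : ∀ s : ℝ, |s| = 1 → s * φ (J Fam y') ≤ max (‖g n‖ - η) 0 * R Fam n y' := by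
              intro s hs
              have h2 := hno ((s * (R Fam n y')⁻¹) • y') (by
                rw [R_smul, abs_mul, hs, one_mul, abs_of_pos (inv_pos.2 h0), inv_mul_cancel₀ h0.ne'])
              rw [map_smul, map_smul, smul_eq_mul] at h2
              have h3 : s * (R Fam n y')⁻¹ * φ (J Fam y') ≤ max (‖g n‖ - η) 0 :=
                h2.le.trans (le_max_left _ _)
              calc s * φ (J Fam y') = (s * (R Fam n y')⁻¹ * φ (J Fam y')) * R Fam n y' := by
                    field_simp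
                _ ≤ _ := mul_le_mul_of_nonneg_right h3 h0.le
            rw [hgn, hyn, Real.norm_eq_abs]
            apply abs_le.2
            have h4 := h1 1 (by simp)
            have h5 := h1 (-1) (by simp)
            constructor <;> linarith
        rcases le_total (‖g n‖ - η) 0 with h0 | h0
        · rw [max_eq_right h0] at hle
          have h2 := hno 0 (by rw [R_zero]; exact zero_le_one)
          rw [map_zero, map_zero] at h2
          have := norm_nonneg (g n)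
          linarith
        · rw [max_eq_left h0] at hle
          linarith
      choose y hy1 hy2 using hex
      let G : StrongDual ℝ (X Fam) := ∑ n ∈ S, ‖g n‖ • J Fam (y n)
      have hG : ‖G‖ ≤ Real.sqrt T := by
        apply ContinuousLinearMap.opNorm_le_bound _ (Real.sqrt_nonneg _)
        intro x
        have h1 : G x = ∑ n ∈ S, ‖g n‖ * J Fam (y n) x := by
          simp only [G]
          rw [_root_.sum_apply]
          rfl
        rw [h1, Real.norm_eq_abs]
        calc |∑ n ∈ S, ‖g n‖ * J Fam (y n) x| ≤ ∑ n ∈ S, |‖g n‖ * J Fam (y n) x| :=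
              Finset.abs_sum_le_sum_abs _ _
          _ ≤ ∑ n ∈ S, ‖g n‖ * ‖x.1 n‖ := by
              apply Finset.sum_le_sum
              intro n _
              rw [abs_mul, abs_of_nonneg (norm_nonneg _)]
              apply mul_le_mul_of_nonneg_left _ (norm_nonneg _)
              calc |J Fam (y n) x| ≤ ‖x.1 n‖ * R Fam n (y n) := J_bound Fam x n _
                _ ≤ ‖x.1 n‖ * 1 := mul_le_mul_of_nonneg_left (hy1 n) (norm_nonneg _)
                _ = _ := mul_one _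
          _ ≤ Real.sqrt (∑ n ∈ S, ‖g n‖ ^ 2) * Real.sqrt (∑ n ∈ S, ‖x.1 n‖ ^ 2) :=
              Real.sum_mul_le_sqrt_mul_sqrt _ _ _
          _ ≤ Real.sqrt T * ‖x‖ := by
              apply mul_le_mul_of_nonneg_left _ (Real.sqrt_nonneg _)
              rw [Real.sqrt_le_left (norm_nonneg _)]
              exact sum_sq_le Fam x S
      have h1 : φ G = ∑ n ∈ S, ‖g n‖ * φ (J Fam (y n)) := by
        simp only [G, map_sum, map_smul, smul_eq_mul]
      calc T - η * Q = ∑ n ∈ S, ‖g n‖ * (‖g n‖ - η) := by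
            rw [hT, hQ, Finset.mul_sum, ← Finset.sum_sub_distrib]
            exact Finset.sum_congr rfl fun n _ => by ring
        _ ≤ ∑ n ∈ S, ‖g n‖ * φ (J Fam (y n)) :=
            Finset.sum_le_sum fun n _ => mul_le_mul_of_nonneg_left (hy2 n) (norm_nonneg _)
        _ = φ G := h1.symm
        _ ≤ |φ G| := le_abs_self _
        _ ≤ ‖φ‖ * ‖G‖ := φ.le_opNorm G
        _ ≤ ‖φ‖ * Real.sqrt T := mul_le_mul_of_nonneg_left hG (norm_nonneg _)
    have main2 : T ≤ ‖φ‖ * Real.sqrt T := by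
      by_contra hlt
      rw [not_le] at hlt
      have h1 := main ((T - ‖φ‖ * Real.sqrt T) / (2 * (Q + 1))) (by
        apply div_pos (by linarith) (by positivity))
      have h2 : (T - ‖φ‖ * Real.sqrt T) / (2 * (Q + 1)) * Q ≤ (T - ‖φ‖ * Real.sqrt T) / 2 := by
        rw [div_mul_eq_mul_div, div_le_div_iff₀ (by positivity) (by norm_num)]
        nlinarith
      linarith
    have h3 : Real.sqrt T * Real.sqrt T = T := Real.mul_self_sqrt hT0
    rcases (Real.sqrt_nonneg T).eq_or_lt with h0 | h0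
    · rw [← h3, ← h0]; nlinarith [sq_nonneg ‖φ‖]
    · have h4 : Real.sqrt T ≤ ‖φ‖ := by
        have : Real.sqrt T * Real.sqrt T ≤ ‖φ‖ * Real.sqrt T := by rw [h3]; exact main2
        exact le_of_mul_le_mul_right this h0
      calc T = Real.sqrt T ^ 2 := by rw [sq, h3]
        _ ≤ ‖φ‖ ^ 2 := pow_le_pow_left₀ h0.le h4 2
  obtain ⟨z, hz⟩ := exists_of Fam g (fun n y => rfl) hS
  have hJz : ∀ y, J Fam y z = φ (J Fam y) := fun y => by
    rw [← ev_eq Fam z 0 y, hz 0, hgy]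
  refine ⟨z, ?_⟩
  ext f
  rw [NormedSpace.dual_def]
  apply eq_of_abs_sub_le_all
  intro ε hε
  have hD : 0 < ‖φ‖ + ‖z‖ + 1 := by positivity
  obtain ⟨A, hA⟩ := dense_aux Fam hstar e he f (div_pos hε hD)
  let h : StrongDual ℝ (X Fam) := ∑ γ ∈ A, f (e γ) • cd Fam γ
  have hh : ∀ x, h x = ∑ γ ∈ A, f (e γ) * cd Fam γ x := by
    intro x
    simp only [h]
    rw [_root_.sum_apply]
    rfl
  have hfh : ‖f - h‖ ≤ ε / (‖φ‖ + ‖z‖ + 1) := by
    apply ContinuousLinearMap.opNorm_le_of_unit_norm (by positivity)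
    intro x hx
    have := hA x hx.le
    rw [← hh] at this
    exact this
  have h1 : φ h = h z := by
    rw [hh]
    simp only [h, map_sum, map_smul, smul_eq_mul]
    exact Finset.sum_congr rfl fun γ _ => by rw [cd, hJz]
  have h2 : f z - φ f = (f - h) z - φ (f - h) := by
    rw [map_sub, h1]
    change f z - φ f = (f z - h z) - (φ f - h z)
    ring
  rw [h2]
  calc |(f - h) z - φ (f - h)| ≤ |(f - h) z| + |φ (f - h)| := abs_sub _ _
    _ ≤ ‖f - h‖ * ‖z‖ + ‖φ‖ * ‖f - h‖ := add_le_add ((f - h).le_opNorm z) (φ.le_opNorm _)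
    _ = ‖f - h‖ * (‖φ‖ + ‖z‖) := by ring
    _ ≤ ε / (‖φ‖ + ‖z‖ + 1) * (‖φ‖ + ‖z‖) := mul_le_mul_of_nonneg_right hfh (by positivity)
    _ ≤ ε := by
        rw [div_mul_eq_mul_div, div_le_iff₀ hD]
        nlinarith [norm_nonneg φ, norm_nonneg z]

end Space

section Comb

variable {W : Type} [LinearOrder W]

/-- `σ` and `τ` differ for the first time at `i` -/
def FirstDiff (σ τ : W → W × ℕ) (i : W) : Prop := (∀ j, j < i → σ j = τ j) ∧ σ i ≠ τ i

/-- good finite sets: binary branching, labels decreasing along branches -/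
def Good (F : Finset (W → W × ℕ)) : Prop :=
  (∀ σ ∈ F, ∀ τ ∈ F, ∀ ρ ∈ F, ∀ i, FirstDiff σ τ i → FirstDiff σ ρ i → FirstDiff τ ρ i → False) ∧
  (∀ σ ∈ F, ∀ τ ∈ F, ∀ ρ ∈ F, ∀ i j, i < j → FirstDiff σ τ i → FirstDiff σ ρ j → (σ j).1 < (σ i).1)

/-- all labels are below `β` -/
def Lab (β : W) (F : Finset (W → W × ℕ)) : Prop :=
  ∀ σ ∈ F, ∀ τ ∈ F, ∀ i, FirstDiff σ τ i → (σ i).1 < β

theorem FirstDiff.symm' {σ τ : W → W × ℕ} {i : W} (h : FirstDiff σ τ i) : FirstDiff τ σ i :=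
  ⟨fun j hj => (h.1 j hj).symm, fun e => h.2 e.symm⟩

theorem not_firstDiff_self (σ : W → W × ℕ) (i : W) : ¬ FirstDiff σ σ i := fun h => h.2 rfl

theorem good_singleton (σ : W → W × ℕ) : Good ({σ} : Finset (W → W × ℕ)) := by
  constructor
  · intro a ha b hb c _ i h1 _ _
    rw [Finset.mem_singleton] at ha hb
    subst ha; subst hb
    exact not_firstDiff_self _ _ h1
  · intro a ha b hb c _ i j _ h1 _
    rw [Finset.mem_singleton] at ha hb
    subst ha; subst hb
    exact absurd h1 (not_firstDiff_self _ _)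

theorem lab_singleton (β : W) (σ : W → W × ℕ) : Lab β ({σ} : Finset (W → W × ℕ)) := by
  intro a ha b hb i h1
  rw [Finset.mem_singleton] at ha hb
  subst ha; subst hb
  exact absurd h1 (not_firstDiff_self _ _)

/-- the union of two good families sitting in different children of a node -/
theorem union_good [DecidableEq (W → W × ℕ)] {F G : Finset (W → W × ℕ)} {β β' : W} (hβ : β < β')
    (hF : Good F) (hG : Good G)
    (lF : Lab β F) (lG : Lab β G) (τ0 : W → W × ℕ) (i0 : W) (v v' : W × ℕ) (hv : v.1 = β)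
    (hv' : v'.1 = β) (hne : v ≠ v')
    (cF : ∀ σ ∈ F, (∀ j, j < i0 → σ j = τ0 j) ∧ σ i0 = v)
    (cG : ∀ σ ∈ G, (∀ j, j < i0 → σ j = τ0 j) ∧ σ i0 = v') :
    Good (F ∪ G) ∧ Lab β' (F ∪ G) := by
  have same : ∀ σ τ : W → W × ℕ, ∀ i, (∀ j, j < i0 → σ j = τ0 j) → (∀ j, j < i0 → τ j = τ0 j) →
      σ i0 = τ i0 → FirstDiff σ τ i → i0 < i := by
    intro σ τ i hσ hτ he h
    by_contra hlt
    rcases (not_lt.1 hlt).lt_or_eq with h1 | h1
    · exact h.2 ((hσ i h1).trans (hτ i h1).symm)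
    · exact h.2 (h1 ▸ he)
  have diff : ∀ σ τ : W → W × ℕ, ∀ i, (∀ j, j < i0 → σ j = τ0 j) → (∀ j, j < i0 → τ j = τ0 j) →
      σ i0 ≠ τ i0 → FirstDiff σ τ i → i = i0 := by
    intro σ τ i hσ hτ he h
    rcases lt_trichotomy i i0 with h1 | h1 | h1
    · exact absurd ((hσ i h1).trans (hτ i h1).symm) h.2
    · exact h1
    · exact absurd (h.1 i0 h1) he
  have FF : ∀ σ ∈ F, ∀ τ ∈ F, ∀ i, FirstDiff σ τ i → i0 < i := fun σ hσ τ hτ i =>
    same σ τ i (cF σ hσ).1 (cF τ hτ).1 ((cF σ hσ).2.trans (cF τ hτ).2.symm)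
  have GG : ∀ σ ∈ G, ∀ τ ∈ G, ∀ i, FirstDiff σ τ i → i0 < i := fun σ hσ τ hτ i =>
    same σ τ i (cG σ hσ).1 (cG τ hτ).1 ((cG σ hσ).2.trans (cG τ hτ).2.symm)
  have FG : ∀ σ ∈ F, ∀ τ ∈ G, ∀ i, FirstDiff σ τ i → i = i0 := fun σ hσ τ hτ i =>
    diff σ τ i (cF σ hσ).1 (cG τ hτ).1 (by rw [(cF σ hσ).2, (cG τ hτ).2]; exact hne)
  have GF : ∀ σ ∈ G, ∀ τ ∈ F, ∀ i, FirstDiff σ τ i → i = i0 := fun σ hσ τ hτ i h =>
    FG τ hτ σ hσ i h.symm'
  refine ⟨⟨?_, ?_⟩, ?_⟩
  · intro a ha b hb c hc i h1 h2 h3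
    rcases Finset.mem_union.1 ha with ha | ha <;> rcases Finset.mem_union.1 hb with hb | hb <;>
      rcases Finset.mem_union.1 hc with hc | hc
    · exact hF.1 a ha b hb c hc i h1 h2 h3
    · exact absurd (FG a ha c hc i h2) (FF a ha b hb i h1).ne'
    · exact absurd (FG a ha b hb i h1) (FF a ha c hc i h2).ne'
    · exact absurd (FG a ha b hb i h1) (GG b hb c hc i h3).ne'
    · exact absurd (GF a ha b hb i h1) (FF b hb c hc i h3).ne'
    · exact absurd (GF a ha b hb i h1) (GG a ha c hc i h2).ne'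
    · exact absurd (GF a ha c hc i h2) (GG a ha b hb i h1).ne'
    · exact hG.1 a ha b hb c hc i h1 h2 h3
  · intro a ha b hb c hc i j hij h1 h2
    rcases Finset.mem_union.1 ha with ha | ha <;> rcases Finset.mem_union.1 hb with hb | hb <;>
      rcases Finset.mem_union.1 hc with hc | hc
    · exact hF.2 a ha b hb c hc i j hij h1 h2
    · have e := FG a ha c hc j h2
      have l := FF a ha b hb i h1
      exact absurd (hij.trans_le e.le) (not_lt.2 l.le)
    · have e := FG a ha b hb i h1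
      rw [e, (cF a ha).2, hv]
      exact lF a ha c hc j h2
    · have e := FG a ha b hb i h1
      have l := FG a ha c hc j h2
      exact absurd hij (by rw [e, l]; exact lt_irrefl _)
    · have e := GF a ha b hb i h1
      have l := GF a ha c hc j h2
      exact absurd hij (by rw [e, l]; exact lt_irrefl _)
    · have e := GF a ha b hb i h1
      rw [e, (cG a ha).2, hv']
      exact lG a ha c hc j h2
    · have e := GF a ha c hc j h2
      have l := GG a ha b hb i h1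
      exact absurd (hij.trans_le e.le) (not_lt.2 l.le)
    · exact hG.2 a ha b hb c hc i j hij h1 h2
  · intro a ha b hb i h1
    rcases Finset.mem_union.1 ha with ha | ha <;> rcases Finset.mem_union.1 hb with hb | hb
    · exact (lF a ha b hb i h1).trans hβ
    · rw [FG a ha b hb i h1, (cF a ha).2, hv]; exact hβ
    · rw [GF a ha b hb i h1, (cG a ha).2, hv']; exact hβ
    · exact (lG a ha b hb i h1).trans hβ

theorem good_star [WellFoundedLT W] (M : Set (W → W × ℕ)) (hM : M.Infinite) :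
    ∃ g : ℕ → (W → W × ℕ), Function.Injective g ∧ (∀ n, g n ∈ M) ∧
      ∀ F : Finset (W → W × ℕ), Good F → ∀ i j k, i ≠ j → i ≠ k → j ≠ k →
        ¬ (g i ∈ F ∧ g j ∈ F ∧ g k ∈ F) := by
  classical
  by_cases hA : ∃ S ⊆ M, ∃ i : W, (∀ σ ∈ S, ∀ τ ∈ S, ∀ j, j < i → σ j = τ j) ∧
      ((fun σ : W → W × ℕ => σ i) '' S).Infinite
  · obtain ⟨S, hSM, i, hagree, hinf⟩ := hA
    let h := hinf.natEmbedding
    have hex : ∀ n, ∃ σ ∈ S, σ i = (h n).1 := fun n => (h n).2
    choose g hgS hgi using hex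
    have hgne : ∀ m n, m ≠ n → g m i ≠ g n i := fun m n hmn => by
      rw [hgi, hgi]; exact fun e => hmn (h.injective (Subtype.ext e))
    refine ⟨g, ?_, fun n => hSM (hgS n), ?_⟩
    · intro m n hmn
      by_contra hne
      exact hgne m n hne (by rw [hmn])
    · intro F hF a b c hab hac hbc hm
      have hfd : ∀ m n, m ≠ n → FirstDiff (g m) (g n) i := fun m n hmn =>
        ⟨fun j hj => hagree _ (hgS m) _ (hgS n) j hj, hgne m n hmn⟩
      exact hF.1 _ hm.1 _ hm.2.1 _ hm.2.2 i (hfd a b hab) (hfd a c hac) (hfd b c hbc)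
  · push Not at hA
    have step : ∀ S : {S : Set (W → W × ℕ) // S ⊆ M ∧ S.Infinite}, ∃ (i : W) (v : W × ℕ)
        (σ : W → W × ℕ), σ ∈ S.1 ∧ (∀ ρ ∈ S.1, ∀ τ ∈ S.1, ∀ j, j < i → ρ j = τ j) ∧
        {τ ∈ S.1 | τ i = v}.Infinite ∧ σ i ≠ v := by
      rintro ⟨S, hSM, hSinf⟩
      -- least coordinate at which two elements differ
      have hne : {i : W | ∃ σ ∈ S, ∃ τ ∈ S, σ i ≠ τ i}.Nonempty := by
        obtain ⟨σ, hσ, τ, hτ, hστ⟩ := hSinf.nontrivial
        obtain ⟨i, hi⟩ := Function.ne_iff.1 hστ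
        exact ⟨i, σ, hσ, τ, hτ, hi⟩
      obtain ⟨i, hi, hmin⟩ := WellFounded.has_min (wellFounded_lt (α := W)) _ hne
      have hagree : ∀ ρ ∈ S, ∀ τ ∈ S, ∀ j, j < i → ρ j = τ j := by
        intro ρ hρ τ hτ j hj
        by_contra hne'
        exact hmin j ⟨ρ, hρ, τ, hτ, hne'⟩ hj
      have hfin : ((fun σ : W → W × ℕ => σ i) '' S).Finite := by
        exact hA S hSM i hagree
      have hv : ∃ v, {τ ∈ S | τ i = v}.Infinite := by
        by_contra hno
        push Not at hno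
        have : S ⊆ ⋃ v ∈ ((fun σ : W → W × ℕ => σ i) '' S), {τ ∈ S | τ i = v} := by
          intro τ hτ
          exact Set.mem_biUnion (⟨τ, hτ, rfl⟩ : τ i ∈ (fun σ : W → W × ℕ => σ i) '' S) ⟨hτ, rfl⟩
        exact hSinf ((hfin.biUnion fun v _ => hno v).subset this)
      obtain ⟨v, hv⟩ := hv
      obtain ⟨σ, hσ, τ, hτ, hστ⟩ := hi
      by_cases h1 : σ i = v
      · exact ⟨i, v, τ, hτ, hagree, hv, fun h2 => hστ (h1.trans h2.symm)⟩
      · exact ⟨i, v, σ, hσ, hagree, hv, h1⟩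
    choose I v s hsS hagree hinf hsv using step
    let nxt : {S : Set (W → W × ℕ) // S ⊆ M ∧ S.Infinite} → {S : Set (W → W × ℕ) // S ⊆ M ∧ S.Infinite} :=
      fun S => ⟨{τ ∈ S.1 | τ (I S) = v S}, fun τ hτ => S.2.1 hτ.1, hinf S⟩
    let Sq : ℕ → {S : Set (W → W × ℕ) // S ⊆ M ∧ S.Infinite} := fun n => Nat.rec ⟨M, subset_rfl, hM⟩ (fun _ S => nxt S) n
    have hSq : ∀ n, Sq (n + 1) = nxt (Sq n) := fun n => rfl
    have hsub1 : ∀ n, (Sq (n + 1)).1 ⊆ (Sq n).1 := fun n τ hτ => by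
      rw [hSq] at hτ; exact hτ.1
    have hsub : ∀ m n, m ≤ n → (Sq n).1 ⊆ (Sq m).1 := by
      intro m n hmn
      induction n, hmn using Nat.le_induction with
      | base => exact subset_rfl
      | succ n _ ih => exact (hsub1 n).trans ih
    have hval : ∀ m n, m < n → ∀ τ ∈ (Sq n).1, τ (I (Sq m)) = v (Sq m) := by
      intro m n hmn τ hτ
      have := hsub (m + 1) n hmn hτ
      rw [hSq] at this
      exact this.2
    let g0 : ℕ → (W → W × ℕ) := fun n => s (Sq n)
    have hg0 : ∀ n, g0 n ∈ (Sq n).1 := fun n => hsS (Sq n)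
    have hfd : ∀ m n, m < n → FirstDiff (g0 m) (g0 n) (I (Sq m)) := by
      intro m n hmn
      refine ⟨fun j hj => hagree (Sq m) _ (hg0 m) _ (hsub m n hmn.le (hg0 n)) j hj, ?_⟩
      rw [hval m n hmn _ (hg0 n)]
      exact hsv (Sq m)
    have hI : ∀ m n, m < n → I (Sq m) < I (Sq n) := by
      intro m n hmn
      obtain ⟨τ, hτ⟩ := (hinf (Sq n)).nonempty
      have hne : g0 n (I (Sq n)) ≠ τ (I (Sq n)) := by rw [hτ.2]; exact hsv (Sq n)
      by_contra hlt
      rcases (not_lt.1 hlt).lt_or_eq with h1 | h1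
      · exact hne (hagree (Sq m) _ (hsub m n hmn.le (hg0 n)) _ (hsub m n hmn.le hτ.1) _ h1)
      · apply hne
        rw [h1, hval m n hmn _ (hg0 n), hval m n hmn _ hτ.1]
    obtain ⟨φ, hφ⟩ := exists_increasing_or_nonincreasing_subseq (· > ·) (fun n => (v (Sq n)).1)
    have hφ2 : ∀ m n : ℕ, m < n → ¬ (v (Sq (φ n))).1 < (v (Sq (φ m))).1 := by
      rcases hφ with h | h
      · exfalso
        have : StrictAnti fun n => (v (Sq (φ n))).1 := fun m n hmn => h m n hmn
        exact not_strictAnti_of_wellFoundedLT _ this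
      · exact h
    refine ⟨fun n => g0 (φ n), ?_, fun n => (Sq (φ n)).2.1 (hg0 (φ n)), ?_⟩
    · intro m n hmn
      by_contra hne
      rcases lt_or_gt_of_ne hne with h | h
      · have := hfd (φ m) (φ n) (φ.strictMono h)
        simp only at hmn
        rw [hmn] at this
        exact not_firstDiff_self _ _ this
      · have := hfd (φ n) (φ m) (φ.strictMono h)
        simp only at hmn
        rw [hmn] at this
        exact not_firstDiff_self _ _ this
    · intro F hF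
      have key : ∀ a b c : ℕ, a < b → b < c → ¬ (g0 (φ a) ∈ F ∧ g0 (φ b) ∈ F ∧ g0 (φ c) ∈ F) := by
        rintro a b c hab hbc ⟨ha, hb, hc⟩
        have h1 := hfd (φ a) (φ c) (φ.strictMono (hab.trans hbc))
        have h2 := hfd (φ b) (φ c) (φ.strictMono hbc)
        have h3 := hF.2 _ hc _ ha _ hb _ _ (hI _ _ (φ.strictMono hab)) h1.symm' h2.symm'
        rw [hval _ _ (φ.strictMono hbc) _ (hg0 (φ c)),
          hval _ _ (φ.strictMono (hab.trans hbc)) _ (hg0 (φ c))] at h3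
        exact hφ2 a b hab h3
      intro i j k hij hik hjk hm
      rcases lt_or_gt_of_ne hij with h1 | h1 <;> rcases lt_or_gt_of_ne hik with h2 | h2 <;>
        rcases lt_or_gt_of_ne hjk with h3 | h3
      · exact key i j k h1 h3 ⟨hm.1, hm.2.1, hm.2.2⟩
      · exact key i k j h2 h3 ⟨hm.1, hm.2.2, hm.2.1⟩
      · omega
      · exact key k i j h2 h1 ⟨hm.2.2, hm.1, hm.2.1⟩
      · exact key j i k h1 h2 ⟨hm.2.1, hm.1, hm.2.2⟩
      · omega
      · exact key j k i h3 h2 ⟨hm.2.1, hm.2.2, hm.1⟩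
      · exact key k j i h3 h1 ⟨hm.2.2, hm.2.1, hm.1⟩

/-- nodes of the tree -/
def NodeLE (t' t : (W → W × ℕ) × W) : Prop := t.2 ≤ t'.2 ∧ ∀ j, j < t.2 → t'.1 j = t.1 j

theorem NodeLE.refl' (t : (W → W × ℕ) × W) : NodeLE t t := ⟨le_rfl, fun _ _ => rfl⟩

theorem NodeLE.trans' {a b c : (W → W × ℕ) × W} (h1 : NodeLE a b) (h2 : NodeLE b c) : NodeLE a c :=
  ⟨h2.1.trans h1.1, fun j hj => (h1.2 j (hj.trans_le h2.1)).trans (h2.2 j hj)⟩

theorem node_closed (hW : ∀ f : ℕ → W, ∃ w, ∀ n, f n < w) (t : ℕ → (W → W × ℕ) × W)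
    (ht : ∀ n, NodeLE (t (n + 1)) (t n)) : ∃ s, ∀ n, NodeLE s (t n) := by
  classical
  have hmono : ∀ m n, m ≤ n → NodeLE (t n) (t m) := by
    intro m n hmn
    induction n, hmn using Nat.le_induction with
    | base => exact NodeLE.refl' _
    | succ n _ ih => exact (ht n).trans' ih
  obtain ⟨w, hw⟩ := hW fun n => (t n).2
  refine ⟨(fun j => if h : ∃ n, j < (t n).2 then (t (Nat.find h)).1 j else (t 0).1 j, w), fun n =>
    ⟨(hw n).le, fun j hj => ?_⟩⟩
  have hex : ∃ n, j < (t n).2 := ⟨n, hj⟩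
  simp only [dif_pos hex]
  have h1 := Nat.find_min' hex hj
  exact ((hmono _ _ h1).2 j (Nat.find_spec hex)).symm

end Comb

/-- stabilisation along a countably closed order -/
theorem stable {T L : Type} (R : T → T → Prop) (hrefl : ∀ t, R t t)
    (htrans : ∀ a b c, R a b → R b c → R a c)
    (hclosed : ∀ t : ℕ → T, (∀ n, R (t (n + 1)) (t n)) → ∃ s, ∀ n, R s (t n))
    [LinearOrder L] (l0 : L) (hL : ∀ f : ℕ → L, ∃ l, ∀ n, f n < l) (K : L → T → ℝ)
    (monoL : ∀ β β' t, β ≤ β' → K β t ≤ K β' t) (monoT : ∀ β t t', R t' t → K β t' ≤ K β t)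
    (c C : ℝ) (hc : ∀ β t, c ≤ K β t) (hC : ∀ β t, K β t ≤ C) (t0 : T) :
    ∃ (κ : ℝ) (β β' : L) (t1 : T), c ≤ κ ∧ β < β' ∧ (∀ t, R t t1 → κ ≤ K β t) ∧ K β' t1 ≤ κ := by
  classical
  let A : ℝ → T → L → Prop := fun q t β => ∀ t', R t' t → ∀ β', β ≤ β' → q ≤ K β' t'
  let B : ℝ → T → Prop := fun q t => ∀ t', R t' t → ∀ β, ∃ t'', R t'' t' ∧ K β t'' < q
  have step : ∀ (q : ℝ) (t : T), ∃ t', R t' t ∧ (B q t' ∨ ∃ β, A q t' β) := by
    intro q t
    by_cases hB : B q t
    · exact ⟨t, hrefl t, Or.inl hB⟩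
    · simp only [B] at hB
      push Not at hB
      obtain ⟨t', ht', β, hβ⟩ := hB
      exact ⟨t', ht', Or.inr ⟨β, fun t'' ht'' β' hβ' => (hβ t'' ht'').trans (monoL _ _ _ hβ')⟩⟩
  have herA : ∀ q t t' β, R t' t → A q t β → A q t' β := fun q t t' β h hA t'' h'' =>
    hA t'' (htrans _ _ _ h'' h)
  have herB : ∀ q t t', R t' t → B q t → B q t' := fun q t t' h hB t'' h'' =>
    hB t'' (htrans _ _ _ h'' h)
  obtain ⟨q, hq⟩ := exists_surjective_nat ℚ
  choose nx hnx1 hnx2 using step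
  let tt : ℕ → T := fun n => Nat.rec t0 (fun k t => nx (q k) t) n
  have htt : ∀ n, tt (n + 1) = nx (q n) (tt n) := fun n => rfl
  obtain ⟨s, hs⟩ := hclosed tt (fun n => by rw [htt]; exact hnx1 _ _)
  have hdich : ∀ n, ∃ β, B (q n) s ∨ A (q n) s β := by
    intro n
    have h1 := hs (n + 1)
    rcases hnx2 (q n) (tt n) with h | ⟨β, h⟩
    · exact ⟨l0, Or.inl (herB _ _ _ h1 h)⟩
    · exact ⟨β, Or.inr (herA _ _ _ _ h1 h)⟩
  choose βs hβs using hdich
  obtain ⟨βx, hβx⟩ := hL βs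
  have hdich2 : ∀ r : ℚ, B r s ∨ A r s βx := by
    intro r
    obtain ⟨n, rfl⟩ := hq r
    rcases hβs n with h | h
    · exact Or.inl h
    · exact Or.inr fun t ht β' hβ' => h t ht β' ((hβx n).le.trans hβ')
  obtain ⟨βy, hβy⟩ := hL fun _ => βx
  have hβy := hβy 0
  let Q : Set ℝ := {x | ∃ r : ℚ, (r : ℝ) = x ∧ A r s βx}
  have hQbdd : BddAbove Q := ⟨C, by
    rintro _ ⟨r, rfl, hr⟩
    exact (hr s (hrefl s) βx le_rfl).trans (hC _ _)⟩
  have hQlow : ∀ r : ℚ, (r : ℝ) < c → (r : ℝ) ∈ Q := fun r hr =>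
    ⟨r, rfl, fun t _ β _ => hr.le.trans (hc β t)⟩
  have hQne : Q.Nonempty := by
    obtain ⟨r, hr⟩ := exists_rat_lt c
    exact ⟨r, hQlow r hr⟩
  set κ := sSup Q with hκ
  have hcκ : c ≤ κ := by
    by_contra hlt
    obtain ⟨r, hr1, hr2⟩ := exists_rat_btwn (not_le.1 hlt)
    exact absurd (le_csSup hQbdd (hQlow r hr2)) (not_le.2 hr1)
  have hlow : ∀ t, R t s → κ ≤ K βx t := by
    intro t ht
    apply csSup_le hQne
    rintro _ ⟨r, rfl, hr⟩
    exact hr t ht βx le_rfl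
  have hB : ∀ r : ℚ, κ < r → B r s := by
    intro r hr
    rcases hdich2 r with h | h
    · exact h
    · exact absurd (le_csSup hQbdd (show (r:ℝ) ∈ Q from ⟨r, rfl, h⟩)) (not_le.2 hr)
  have step2 : ∀ (n : ℕ) (u : {t // R t s}), ∃ u' : {t // R t s}, R u'.1 u.1 ∧ K βy u'.1 < κ + 1 / ((n : ℝ) + 1) := by
    intro n u
    obtain ⟨r, hr1, hr2⟩ := exists_rat_btwn (show κ < κ + 1 / ((n : ℝ) + 1) by
      have : (0:ℝ) < 1 / ((n : ℝ) + 1) := by positivity
      linarith)
    obtain ⟨t, ht1, ht2⟩ := hB r hr1 u.1 u.2 βy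
    exact ⟨⟨t, htrans _ _ _ ht1 u.2⟩, ht1, ht2.trans hr2⟩
  choose ny hny1 hny2 using step2
  let uu : ℕ → {t // R t s} := fun n => Nat.rec ⟨s, hrefl s⟩ (fun k u => ny k u) n
  have huu : ∀ n, uu (n + 1) = ny n (uu n) := fun n => rfl
  obtain ⟨t1, ht1⟩ := hclosed (fun n => (uu n).1) (fun n => by rw [huu]; exact hny1 _ _)
  refine ⟨κ, βx, βy, t1, hcκ, hβy, fun t ht => hlow t (htrans _ _ _ ht (htrans _ _ _ (ht1 0) (hrefl s))), ?_⟩
  apply le_of_forall_pos_lt_add
  intro ε hε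
  obtain ⟨n, hn⟩ := exists_nat_one_div_lt hε
  calc K βy t1 ≤ K βy (uu (n + 1)).1 := monoT _ _ _ (ht1 (n + 1))
    _ < κ + 1 / ((n : ℝ) + 1) := by rw [huu]; exact hny2 _ _
    _ < κ + ε := by linarith

theorem bounded_omega1 (f : ℕ → (Ordinal.omega.{0} 1).ToType) : ∃ w, ∀ n, f n < w := by
  have h1 : ⨆ n, ((Ordinal.ToType.toOrd (f n)).1 : Ordinal.{0}) < Ordinal.omega 1 :=
    Ordinal.iSup_lt_omega_one fun n => (Ordinal.ToType.toOrd (f n)).2
  have h2 : Order.succ (⨆ n, ((Ordinal.ToType.toOrd (f n)).1 : Ordinal.{0})) ∈ Set.Iio (Ordinal.omega.{0} 1) := by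
    have := (Cardinal.isSuccLimit_omega 1).succ_lt h1
    exact this
  refine ⟨Ordinal.ToType.mk ⟨_, h2⟩, fun n => ?_⟩
  have h3 : Ordinal.ToType.toOrd (f n) < ⟨_, h2⟩ := by
    show (Ordinal.ToType.toOrd (f n)).1 < _
    exact (Ordinal.le_iSup (fun n => ((Ordinal.ToType.toOrd (f n)).1 : Ordinal.{0})) n).trans_lt (Order.lt_succ _)
  have := Ordinal.ToType.mk.strictMono h3
  simpa using this


/-! ### the counterexample -/

section Final

/-- a Banach space is reflexive when the canonical embedding into its bidual is onto -/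
def IsReflexiveSpace (E : Type) [NormedAddCommGroup E] [NormedSpace ℝ E] : Prop :=
  Function.Surjective (NormedSpace.inclusionInDoubleDual ℝ E)

/-- `p` is an equivalent norm on `E` -/
def IsEquivalentNorm {E : Type} [NormedAddCommGroup E] [NormedSpace ℝ E] (p : Seminorm ℝ E) : Prop :=
  ∃ a b : ℝ, 0 < a ∧ ∀ x, a * ‖x‖ ≤ p x ∧ p x ≤ b * ‖x‖

/-- Chebyshev radius of `C` with respect to `p` -/
def chebRadius {E : Type} [AddCommGroup E] [Module ℝ E] (p : Seminorm ℝ E) (C : Set E) : ℝ :=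
  ⨅ x : C, ⨆ y : C, p ((x : E) - y)

/-- diameter of `C` with respect to `p` -/
def pDiam {E : Type} [AddCommGroup E] [Module ℝ E] (p : Seminorm ℝ E) (C : Set E) : ℝ :=
  ⨆ x : C, ⨆ y : C, p ((x : E) - y)

/-- normal structure with respect to `p` -/
def HasNormalStructure {E : Type} [AddCommGroup E] [Module ℝ E] (p : Seminorm ℝ E) : Prop :=
  ∀ C : Set E, Convex ℝ C → (∃ B : ℝ, ∀ x ∈ C, p x ≤ B) → C.Nontrivial →
    chebRadius p C < pDiam p C

/-- abstract criterion: a sequence with `p (x n)` tending to `κ` and all `p (x n ± x m) ≤ κ` -/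
theorem not_normal {E : Type} [AddCommGroup E] [Module ℝ E] (p : Seminorm ℝ E) (κ : ℝ) (hκ : 0 < κ)
    (x : ℕ → E) (hlow : ∀ n : ℕ, κ - 1 / ((n : ℝ) + 1) < p (x n))
    (hp : ∀ n m, n ≠ m → p (x n + x m) ≤ κ) (hm : ∀ n m, n ≠ m → p (x n - x m) ≤ κ) :
    ¬ HasNormalStructure p := by
  intro H
  set C : Set E := convexHull ℝ (Set.range x) with hC
  have hconvball : ∀ (a : E) (r : ℝ), Convex ℝ {u : E | p (a - u) ≤ r} := by
    intro a r
    have h := p.convex_closedBall a r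
    have : {u : E | p (a - u) ≤ r} = p.closedBall a r := by
      ext u
      rw [Seminorm.mem_closedBall, Set.mem_ofPred_eq, map_sub_rev]
    rw [this]; exact h
  have h1 : ∀ n, ∀ y ∈ C, p (x n - y) ≤ κ := by
    intro n y hy
    have hsub : Set.range x ⊆ {u : E | p (x n - u) ≤ κ} := by
      rintro _ ⟨m, rfl⟩
      rcases eq_or_ne n m with h | h
      · subst h; simp only [Set.mem_ofPred_eq, sub_self, map_zero]; exact hκ.le
      · exact hm n m h
    exact convexHull_min hsub (hconvball _ _) hy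
  have h2 : ∀ z ∈ C, ∀ y ∈ C, p (z - y) ≤ κ := by
    intro z hz y hy
    have hsub : Set.range x ⊆ {u : E | p (y - u) ≤ κ} := by
      rintro _ ⟨m, rfl⟩
      show p (y - x m) ≤ κ
      rw [map_sub_rev]; exact h1 m y hy
    have := convexHull_min hsub (hconvball _ _) hz
    rw [map_sub_rev]; exact this
  have h3 : ∀ z ∈ C, ∀ᶠ n in atTop, p (x n + z) ≤ κ := by
    intro z hz
    have hconv : Convex ℝ {u : E | ∀ᶠ n in atTop, p (x n + u) ≤ κ} := by
      intro u hu v hv a b ha hb hab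
      filter_upwards [hu, hv] with n hn1 hn2
      have : x n + (a • u + b • v) = a • (x n + u) + b • (x n + v) := by
        have h4 : x n = a • x n + b • x n := by rw [← add_smul, hab, one_smul]
        conv_lhs => rw [h4]
        rw [smul_add, smul_add]; abel
      rw [this]
      calc p (a • (x n + u) + b • (x n + v)) ≤ p (a • (x n + u)) + p (b • (x n + v)) := map_add_le_add _ _ _
        _ = a * p (x n + u) + b * p (x n + v) := by
            rw [map_smul_eq_mul, map_smul_eq_mul, Real.norm_of_nonneg ha, Real.norm_of_nonneg hb]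
        _ ≤ a * κ + b * κ := add_le_add (mul_le_mul_of_nonneg_left hn1 ha) (mul_le_mul_of_nonneg_left hn2 hb)
        _ = κ := by rw [← add_mul, hab, one_mul]
    have hsub : Set.range x ⊆ {u : E | ∀ᶠ n in atTop, p (x n + u) ≤ κ} := by
      rintro _ ⟨m, rfl⟩
      show ∀ᶠ n in atTop, p (x n + x m) ≤ κ
      filter_upwards [eventually_gt_atTop m] with n hn
      exact hp n m hn.ne'
    exact convexHull_min hsub hconv hz
  have h4 : ∀ z ∈ C, ∀ ε : ℝ, 0 < ε → ∃ y ∈ C, κ - ε < p (z - y) := by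
    intro z hz ε hε
    obtain ⟨N, hN⟩ := exists_nat_one_div_lt (show 0 < ε / 2 by positivity)
    obtain ⟨n, hn1, hn2⟩ := ((h3 z hz).and (eventually_ge_atTop N)).exists
    refine ⟨x n, subset_convexHull ℝ _ ⟨n, rfl⟩, ?_⟩
    have h5 : p (x n + x n) ≤ p (x n + z) + p (x n - z) := by
      have : x n + x n = (x n + z) + (x n - z) := by abel
      rw [this]; exact map_add_le_add _ _ _
    have h6 : p (x n + x n) = 2 * p (x n) := by
      rw [← two_smul ℝ (x n), map_smul_eq_mul]; norm_num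
    have h7 := hlow n
    have h8 : 1 / ((n : ℝ) + 1) ≤ 1 / ((N : ℝ) + 1) := by
      apply one_div_le_one_div_of_le (by positivity)
      have : (N : ℝ) ≤ n := by exact_mod_cast hn2
      linarith
    rw [map_sub_rev]
    linarith
  have h5 : ∀ z : C, ⨆ y : C, p ((z : E) - y) = κ := by
    intro z
    have : Nonempty C := ⟨z⟩
    apply le_antisymm
    · exact ciSup_le fun y => h2 z.1 z.2 y.1 y.2
    · apply le_of_forall_pos_le_add
      intro ε hε
      obtain ⟨y, hy, hyε⟩ := h4 z.1 z.2 ε hε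
      have hb : BddAbove (Set.range fun y : C => p ((z : E) - y)) := ⟨κ, by
        rintro _ ⟨y, rfl⟩; exact h2 z.1 z.2 y.1 y.2⟩
      have := le_ciSup hb ⟨y, hy⟩
      simp only at this
      linarith
  have hx0 : x 0 ∈ C := subset_convexHull ℝ _ ⟨0, rfl⟩
  have : Nonempty C := ⟨⟨x 0, hx0⟩⟩
  have hbd : ∃ B : ℝ, ∀ z ∈ C, p z ≤ B := ⟨κ + p (x 0), fun z hz => by
    have : p z ≤ p (z - x 0) + p (x 0) := by
      have h := map_add_le_add p (z - x 0) (x 0)
      rwa [sub_add_cancel] at h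
    linarith [h2 z hz (x 0) hx0]⟩
  have hnt : C.Nontrivial := by
    obtain ⟨y, hy, hyε⟩ := h4 (x 0) hx0 κ hκ
    refine ⟨x 0, hx0, y, hy, fun e => ?_⟩
    rw [← e, sub_self, sub_self, map_zero] at hyε
    exact lt_irrefl _ hyε
  have := H C (convex_convexHull ℝ _) hbd hnt
  rw [chebRadius, pDiam] at this
  simp only [h5, ciInf_const, ciSup_const] at this
  exact lt_irrefl _ this

variable {W : Type} [LinearOrder W]

/-- the family of good finite sets -/
def FamW (W : Type) [LinearOrder W] : Set (Finset (W → W × ℕ)) := {F | Good F}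

theorem singW (σ : W → W × ℕ) : ({σ} : Finset (W → W × ℕ)) ∈ FamW W := good_singleton σ

variable [WellFoundedLT W]

theorem starW : Star (FamW W) := by
  intro M hM
  obtain ⟨g, h1, h2, h3⟩ := good_star M hM
  exact ⟨g, h1, h2, fun F hF => h3 F hF⟩

/-- flat vectors supported on a good set inside a node, all labels below `β` -/
def Cl (e : (W → W × ℕ) → X (FamW W)) (β : W) (t : (W → W × ℕ) × W) : Set (X (FamW W)) :=
  {x | ∃ F : Finset (W → W × ℕ), F.Nonempty ∧ Good F ∧ Lab β F ∧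
    (∀ σ ∈ F, ∀ j, j < t.2 → σ j = t.1 j) ∧
    ∃ ε : (W → W × ℕ) → ℝ, (∀ σ, |ε σ| = 1) ∧ x = ∑ σ ∈ F, ε σ • e σ}

theorem main (hW : ∀ f : ℕ → W, ∃ w, ∀ n, f n < w) [Nonempty W] (p : Seminorm ℝ (X (FamW W)))
    (hp : IsEquivalentNorm p) : ¬ HasNormalStructure p := by
  classical
  obtain ⟨a, b, ha, hab⟩ := hp
  obtain ⟨w0⟩ := ‹Nonempty W›
  choose e he using exists_e (FamW W) singW
  have hcd : ∀ γ σ, cd (FamW W) γ (e σ) = if σ = γ then 1 else 0 := by
    intro γ σ
    rw [cd, he, Finsupp.single_apply]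
    simp only [eq_comm]
  have hnorm1 : ∀ β t, ∀ x ∈ Cl e β t, ‖x‖ ≤ 2 := by
    rintro β t x ⟨F, _, hF, _, _, ε, hε, rfl⟩
    have := norm_le_of_rho (FamW W) (∑ σ ∈ F, ε σ • e σ) (C := 1) zero_le_one (by
      intro y
      rw [map_sum]
      simp only [map_smul, he, smul_eq_mul]
      calc |∑ σ ∈ F, ε σ * y σ| ≤ ∑ σ ∈ F, |ε σ * y σ| := Finset.abs_sum_le_sum_abs _ _
        _ = ∑ σ ∈ F, |y σ| := Finset.sum_congr rfl fun σ _ => by rw [abs_mul, hε, one_mul]
        _ ≤ rho (FamW W) y := le_rho (FamW W) y hF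
        _ = 1 * rho (FamW W) y := (one_mul _).symm)
    linarith
  have hnorm2 : ∀ β t, ∀ x ∈ Cl e β t, 1 / 2 ≤ ‖x‖ := by
    rintro β t x ⟨F, ⟨σ0, hσ0⟩, hF, _, _, ε, hε, rfl⟩
    have h1 := cd_bound (FamW W) σ0 (∑ σ ∈ F, ε σ • e σ)
    have h2 : cd (FamW W) σ0 (∑ σ ∈ F, ε σ • e σ) = ε σ0 := by
      rw [map_sum]
      simp only [map_smul, hcd, smul_eq_mul, mul_ite, mul_one, mul_zero]
      rw [Finset.sum_ite_eq' F σ0]
      exact if_pos hσ0
    rw [h2, hε] at h1
    linarith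
  have hb0 : 0 ≤ b := by
    have hne : (e fun _ => (w0, 0)) ∈ Cl e w0 ((fun _ => (w0, 0)), w0) :=
      ⟨{fun _ => (w0, 0)}, Finset.singleton_nonempty _, good_singleton _, lab_singleton _ _,
        fun σ hσ j _ => by rw [Finset.mem_singleton.1 hσ], fun _ => 1, fun _ => by simp, by simp⟩
    have h1 := hnorm2 _ _ _ hne
    have h2 := hab (e fun _ => (w0, 0))
    by_contra hneg
    rw [not_le] at hneg
    nlinarith
  have hlo : ∀ β t, ∀ x ∈ Cl e β t, a / 2 ≤ p x := fun β t x hx => by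
    have h1 := hnorm2 β t x hx
    have h2 := (hab x).1
    nlinarith
  have hup : ∀ β t, ∀ x ∈ Cl e β t, p x ≤ 2 * b := fun β t x hx => by
    have h1 := hnorm1 β t x hx
    have h2 := (hab x).2
    nlinarith
  have hne : ∀ β t, (Cl e β t).Nonempty := fun β t =>
    ⟨e t.1, {t.1}, Finset.singleton_nonempty _, good_singleton _, lab_singleton _ _,
      fun σ hσ j _ => by rw [Finset.mem_singleton.1 hσ], fun _ => 1, fun _ => by simp, by simp⟩
  let K : W → (W → W × ℕ) × W → ℝ := fun β t => sSup (p '' Cl e β t)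
  have hbdd : ∀ β t, BddAbove (p '' Cl e β t) := fun β t => ⟨2 * b, by
    rintro _ ⟨x, hx, rfl⟩; exact hup β t x hx⟩
  have hKle : ∀ β t, ∀ x ∈ Cl e β t, p x ≤ K β t := fun β t x hx => le_csSup (hbdd β t) ⟨x, hx, rfl⟩
  obtain ⟨κ, β, β', t1, hκ, hββ', hK1, hK2⟩ := stable NodeLE NodeLE.refl'
    (fun _ _ _ h1 h2 => NodeLE.trans' h1 h2) (node_closed hW) w0 hW K
    (by
      intro β β' t h
      apply csSup_le ((hne β t).image p)
      rintro _ ⟨x, ⟨F, h1, h2, h3, h4⟩, rfl⟩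
      exact hKle β' t x ⟨F, h1, h2, fun σ hσ τ hτ i hi => (h3 σ hσ τ hτ i hi).trans_le h, h4⟩)
    (by
      intro β t t' h
      apply csSup_le ((hne β t').image p)
      rintro _ ⟨x, ⟨F, h1, h2, h3, h4, h5⟩, rfl⟩
      exact hKle β t x ⟨F, h1, h2, h3, fun σ hσ j hj =>
        (h4 σ hσ j (hj.trans_le h.1)).trans (h.2 j hj), h5⟩)
    (a / 2) (2 * b)
    (by
      intro β t
      obtain ⟨x, hx⟩ := hne β t
      exact (hlo β t x hx).trans (hKle β t x hx))
    (by
      intro β t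
      apply csSup_le ((hne β t).image p)
      rintro _ ⟨x, hx, rfl⟩
      exact hup β t x hx)
    ((fun _ => (w0, 0)), w0)
  -- a level above the level of `t1`
  obtain ⟨i', hi'⟩ := hW fun _ => t1.2
  have hi' := hi' 0
  let ch : ℕ → (W → W × ℕ) × W := fun n => (Function.update t1.1 t1.2 (β, n), i')
  have hch : ∀ n, NodeLE (ch n) t1 := fun n => by
    refine ⟨hi'.le, fun j hj => ?_⟩
    simp only [ch]
    rw [Function.update_of_ne hj.ne]
  have hsel : ∀ n : ℕ, ∃ x ∈ Cl e β (ch n), κ - 1 / ((n : ℝ) + 1) < p x := by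
    intro n
    have h1 : κ - 1 / ((n : ℝ) + 1) < sSup (p '' Cl e β (ch n)) := by
      have h2 := hK1 (ch n) (hch n)
      have h3 : (0:ℝ) < 1 / ((n : ℝ) + 1) := by positivity
      have h4 : κ ≤ sSup (p '' Cl e β (ch n)) := h2
      linarith
    obtain ⟨_, ⟨x, hx, rfl⟩, hlt⟩ := exists_lt_of_lt_csSup ((hne β (ch n)).image p) h1
    exact ⟨x, hx, hlt⟩
  choose x hxCl hxlow using hsel
  have hpair : ∀ n m, n ≠ m → ∀ s : ℝ, |s| = 1 → p (x n + s • x m) ≤ κ := by
    intro n m hnm s hs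
    obtain ⟨F, hF1, hF2, hF3, hF4, ε, hε, hxF⟩ := hxCl n
    obtain ⟨G, hG1, hG2, hG3, hG4, δ, hδ, hxG⟩ := hxCl m
    have cF : ∀ σ ∈ F, (∀ j, j < t1.2 → σ j = t1.1 j) ∧ σ t1.2 = (β, n) := fun σ hσ => by
      refine ⟨fun j hj => ?_, ?_⟩
      · rw [hF4 σ hσ j (hj.trans hi')]; simp only [ch]; rw [Function.update_of_ne hj.ne]
      · rw [hF4 σ hσ _ hi']; simp only [ch]; rw [Function.update_self]
    have cG : ∀ σ ∈ G, (∀ j, j < t1.2 → σ j = t1.1 j) ∧ σ t1.2 = (β, m) := fun σ hσ => by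
      refine ⟨fun j hj => ?_, ?_⟩
      · rw [hG4 σ hσ j (hj.trans hi')]; simp only [ch]; rw [Function.update_of_ne hj.ne]
      · rw [hG4 σ hσ _ hi']; simp only [ch]; rw [Function.update_self]
    have hvne : ((β, n) : W × ℕ) ≠ (β, m) := fun h => hnm (Prod.ext_iff.1 h).2
    obtain ⟨hgood, hlab⟩ := union_good hββ' hF2 hG2 hF3 hG3 t1.1 t1.2 (β, n) (β, m) rfl rfl hvne cF cG
    have hdisj : Disjoint F G := by
      rw [Finset.disjoint_left]
      intro σ h1 h2
      exact hvne ((cF σ h1).2.symm.trans (cG σ h2).2)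
    have hmem : x n + s • x m ∈ Cl e β' t1 := by
      refine ⟨F ∪ G, hF1.mono Finset.subset_union_left, hgood, hlab, ?_,
        fun σ => if σ ∈ F then ε σ else s * δ σ, ?_, ?_⟩
      · intro σ hσ j hj
        rcases Finset.mem_union.1 hσ with h | h
        · exact (cF σ h).1 j hj
        · exact (cG σ h).1 j hj
      · intro σ
        simp only
        split_ifs
        · exact hε σ
        · rw [abs_mul, hs, hδ, one_mul]
      · rw [Finset.sum_union hdisj, hxF, hxG, Finset.smul_sum]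
        congr 1
        · refine Finset.sum_congr rfl fun σ hσ => ?_
          simp only
          rw [if_pos hσ]
        · refine Finset.sum_congr rfl fun σ hσ => ?_
          simp only
          rw [if_neg (Finset.disjoint_right.1 hdisj hσ), smul_smul]
    exact (hKle β' t1 _ hmem).trans hK2
  refine not_normal p κ (by linarith) x hxlow ?_ ?_
  · intro n m hnm
    have := hpair n m hnm 1 (by simp)
    rwa [one_smul] at this
  · intro n m hnm
    have := hpair n m hnm (-1) (by simp)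
    rwa [neg_one_smul, ← sub_eq_add_neg] at this

end Final

/-- There is a reflexive real Banach space such that for no equivalent norm it has normal
structure. -/
theorem result : ∃ (E : Type) (_ : NormedAddCommGroup E) (_ : NormedSpace ℝ E),
    CompleteSpace E ∧ IsReflexiveSpace E ∧
      ∀ p : Seminorm ℝ E, IsEquivalentNorm p → ¬ HasNormalStructure p := by
  have : Nonempty (Ordinal.omega.{0} 1).ToType := ⟨(bounded_omega1 (fun _ => Classical.choice (by
    rw [Ordinal.nonempty_toType_iff]; exact (Ordinal.omega_pos 1).ne'))).choose⟩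
  exact ⟨X (FamW (Ordinal.omega.{0} 1).ToType), inferInstance, inferInstance, inferInstance,
    reflexive _ singW starW, fun p hp => main bounded_omega1 p hp⟩

end Pool.Agent.Results.MP_44bc16_an.NoNormalStructure
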